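import Pool.Agent.V7H53.SX.Types

set_option autoImplicit false
set_option linter.unusedSectionVars false

/-!
# Counting CM types
-/

namespace Pool.Agent.V7H53.SX

open NumberField TensorProduct Pool.Agent.W289.SL Pool.Agent.W332.SL6
open Pool.Agent.W254.PA (exists_theta LgP Hyp LtE)

variable {p : ℕ} [Fact p.Prime]

variable {k F K : Type} [Field k] [NumberField k] [IsTotallyComplex k] [Field F] [NumberField F]
  [IsTotallyReal F] [Field K] [NumberField K] [Algebra F K] [Algebra k K]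

/-- translates of CM types are CM types -/
lemma isCMType_translate (cK : K ≃ₐ[F] K) (hcKu : ∀ τ : K ≃ₐ[F] K, τ ≠ 1 → τ = cK)
    (hcK1 : cK ≠ 1)
    (hcK : ∀ b : K →+* ℂ, (starRingEnd ℂ).comp b = b.comp (cK : K →+* K))
    {S : Set (K →+* ℂ_[p])} (hS : IsCMType p F K S) (b : K ≃ₐ[k] K) :
    IsCMType p F K {t | t.comp (b : K →+* K) ∈ S} := by
  intro c hc σ
  rw [hcKu c hc]
  have h1 := hS cK hcK1 (σ.comp (b : K →+* K))
  have h2 : (σ.comp (cK : K →+* K)).comp (b : K →+* K) =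
      (σ.comp (b : K →+* K)).comp (cK : K →+* K) := by
    ext y
    change σ (cK (b y)) = σ (b (cK y))
    rw [cK_comm cK hcK]
  change σ.comp (b : K →+* K) ∈ S ↔ ¬ ((σ.comp (cK : K →+* K)).comp (b : K →+* K) ∈ S)
  rw [h2]
  exact h1

/-- the count -/
theorem count [IsGalois k K] [FiniteDimensional k K] (θ : ℂ_[p] ≃+* ℂ)
    (hpl : ∀ w w' : InfinitePlace k, w = w') (cK : K ≃ₐ[F] K)
    (hcKu : ∀ τ : K ≃ₐ[F] K, τ ≠ 1 → τ = cK) (hcK1 : cK ≠ 1)
    (hcK : ∀ b : K →+* ℂ, (starRingEnd ℂ).comp b = b.comp (cK : K →+* K))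
    (P : Set (K →+* ℂ_[p]) → Prop)
    (hind : ∀ S : Set (K →+* ℂ_[p]), IsCMType p F K S →
      (∀ t ∈ S, ∀ t' ∈ S, t.comp (algebraMap k K) = t'.comp (algebraMap k K)) → P S)
    (q : ℕ) (S : Set (K →+* ℂ_[p])) (hS : IsCMType p F K S)
    (hq : ∀ ι : k →+* ℂ_[p], ¬ q ∣ Set.ncard {t | t ∈ S ∧ t.comp (algebraMap k K) = ι})
    (hP : ∀ b : K ≃ₐ[k] K, P {t | t.comp (b : K →+* K) ∈ S}) :
    ∃ g : ℕ, g ∣ Nat.card (K ≃ₐ[k] K) ∧ ¬ q ∣ g ∧
      Nat.card (K ≃ₐ[k] K) / g + 2 ≤ Set.ncard {T : Set (K →+* ℂ_[p]) | IsCMType p F K T ∧ P T} := by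
  classical
  haveI : Finite (K →+* ℂ_[p]) := inferInstance
  -- the action
  letI act : MulAction (K ≃ₐ[k] K) (Set (K →+* ℂ_[p])) :=
    { smul := fun b T => {t | t.comp (b : K →+* K) ∈ T}
      one_smul := fun T => rfl
      mul_smul := fun a b T => rfl }
  have hsmul : ∀ (b : K ≃ₐ[k] K) (T : Set (K →+* ℂ_[p])), b • T = {t | t.comp (b : K →+* K) ∈ T} :=
    fun b T => rfl
  obtain ⟨s0⟩ : Nonempty (K →+* ℂ_[p]) := by
    have : Algebra.IsAlgebraic ℚ K := inferInstance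
    exact ⟨(IsAlgClosed.lift : K →ₐ[ℚ] ℂ_[p])⟩
  let N := MulAction.stabilizer (K ≃ₐ[k] K) S
  refine ⟨Nat.card N, Subgroup.card_subgroup_dvd_card N, ?_, ?_⟩
  · -- the stabilizer acts freely on the members over one embedding
    intro hdvd
    apply hq (s0.comp (algebraMap k K))
    let T : Set (K ≃ₐ[k] K) := {b | s0.comp (b : K →+* K) ∈ S}
    have h1 : {t | t ∈ S ∧ t.comp (algebraMap k K) = s0.comp (algebraMap k K)} =
        (fun b : K ≃ₐ[k] K => s0.comp (b : K →+* K)) '' T := by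
      ext t
      constructor
      · rintro ⟨ht, h2⟩
        obtain ⟨b, rfl⟩ := exists_aut (K := k) t s0 h2
        exact ⟨b, ht, rfl⟩
      · rintro ⟨b, hb, rfl⟩
        exact ⟨hb, res_comp s0 b⟩
    rw [h1, Set.ncard_image_of_injective _ (fun b b' h => comp_inj s0 h)]
    have h2 : T = (QuotientGroup.mk : (K ≃ₐ[k] K) → (K ≃ₐ[k] K) ⧸ N) ⁻¹'
        ((QuotientGroup.mk : (K ≃ₐ[k] K) → (K ≃ₐ[k] K) ⧸ N) '' T) := by
      ext b
      constructor
      · intro hb
        exact ⟨b, hb, rfl⟩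
      · rintro ⟨b', hb', h3⟩
        have h4 : b'⁻¹ * b ∈ N := QuotientGroup.eq.1 h3
        have h5 : (b'⁻¹ * b) • S = S := MulAction.mem_stabilizer_iff.1 h4
        have h6 : s0.comp (b' : K →+* K) ∈ (b'⁻¹ * b) • S := by
          rw [h5]
          exact hb'
        have h7 : (s0.comp (b' : K →+* K)).comp ((b'⁻¹ * b : K ≃ₐ[k] K) : K →+* K) =
            s0.comp (b : K →+* K) := by
          ext y
          change s0 (b' ((b'⁻¹ * b) y)) = s0 (b y)
          rw [← AlgEquiv.mul_apply, mul_inv_cancel_left]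
        have h8 : (s0.comp (b' : K →+* K)).comp ((b'⁻¹ * b : K ≃ₐ[k] K) : K →+* K) ∈ S := h6
        rw [h7] at h8
        exact h8
    have h3 : Nat.card T = Nat.card N * Nat.card
        ((QuotientGroup.mk : (K ≃ₐ[k] K) → (K ≃ₐ[k] K) ⧸ N) '' T : Set _) := by
      conv_lhs => rw [h2]
      exact QuotientGroup.card_preimage_mk N _
    rw [← Nat.card_coe_set_eq, h3]
    exact Dvd.dvd.mul_right hdvd _
  · -- the orbit and the two induced types
    have horb : Nat.card (MulAction.orbit (K ≃ₐ[k] K) S) * Nat.card N = Nat.card (K ≃ₐ[k] K) := by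
      haveI : Fintype (K ≃ₐ[k] K) := Fintype.ofFinite _
      haveI : Fintype (MulAction.orbit (K ≃ₐ[k] K) S) := Fintype.ofFinite _
      haveI : Fintype N := Fintype.ofFinite _
      have h1 := MulAction.card_orbit_mul_card_stabilizer_eq_card_group (K ≃ₐ[k] K) S
      rw [Nat.card_eq_fintype_card, Nat.card_eq_fintype_card, Nat.card_eq_fintype_card, ← h1]
    have hNpos : 0 < Nat.card N := Nat.card_pos
    have horb' : Nat.card (K ≃ₐ[k] K) / Nat.card N =
        (MulAction.orbit (K ≃ₐ[k] K) S).ncard := by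
      rw [← horb, Nat.mul_div_cancel _ hNpos, Nat.card_coe_set_eq]
    rw [horb']
    set ι₀ : k →+* ℂ_[p] := s0.comp (algebraMap k K) with hι₀
    have hmv := move (p := p) (k := k) θ cK hcK
    let S₁ : Set (K →+* ℂ_[p]) := {t | t.comp (algebraMap k K) = ι₀}
    let S₂ : Set (K →+* ℂ_[p]) := {t | t.comp (algebraMap k K) ≠ ι₀}
    have htwo : ∀ t : K →+* ℂ_[p], t.comp (algebraMap k K) = ι₀ ↔
        (t.comp (cK : K →+* K)).comp (algebraMap k K) ≠ ι₀ := by
      intro t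
      constructor
      · intro h h2
        exact hmv t (h2.trans h.symm)
      · intro h
        by_contra h2
        exact hmv t (two_emb θ hpl ι₀ _ _ h h2)
    have hS₁ : IsCMType p F K S₁ := by
      intro c hc t
      rw [hcKu c hc]
      exact htwo t
    have hS₂ : IsCMType p F K S₂ := by
      intro c hc t
      rw [hcKu c hc]
      change ¬ (t.comp (algebraMap k K) = ι₀) ↔
        ¬ ((t.comp (cK : K →+* K)).comp (algebraMap k K) ≠ ι₀)
      rw [htwo t]
    have hP₁ : P S₁ := hind S₁ hS₁ fun t ht t' ht' => ht.trans ht'.symm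
    have hP₂ : P S₂ := hind S₂ hS₂ fun t ht t' ht' => two_emb θ hpl ι₀ _ _ ht ht'
    -- members over both embeddings
    have hne : ∀ ι : k →+* ℂ_[p], ∃ t ∈ S, t.comp (algebraMap k K) = ι := by
      intro ι
      by_contra hcon
      push Not at hcon
      apply hq ι
      have h1 : {t | t ∈ S ∧ t.comp (algebraMap k K) = ι} = ∅ := by
        ext t
        constructor
        · rintro ⟨ht, h2⟩
          exact absurd h2 (hcon t ht)
        · intro h
          exact absurd h (Set.notMem_empty t)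
      rw [h1, Set.ncard_empty]
      exact dvd_zero q
    have hne' : ∀ b : K ≃ₐ[k] K, ∀ ι : k →+* ℂ_[p], ∃ t ∈ b • S, t.comp (algebraMap k K) = ι := by
      intro b ι
      obtain ⟨t, ht, h1⟩ := hne ι
      refine ⟨t.comp ((b⁻¹ : K ≃ₐ[k] K) : K →+* K), ?_, ?_⟩
      · have h2 : (t.comp ((b⁻¹ : K ≃ₐ[k] K) : K →+* K)).comp (b : K →+* K) = t := by
          ext y
          change t ((b⁻¹ : K ≃ₐ[k] K) (b y)) = t y
          rw [← AlgEquiv.mul_apply, inv_mul_cancel, AlgEquiv.one_apply]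
        change (t.comp ((b⁻¹ : K ≃ₐ[k] K) : K →+* K)).comp (b : K →+* K) ∈ S
        rw [h2]
        exact ht
      · rw [res_comp, h1]
    have hne12 : S₁ ≠ S₂ := by
      intro h
      have h1 : s0 ∈ S₁ := rfl
      rw [h] at h1
      exact h1 rfl
    have hn₁ : S₁ ∉ MulAction.orbit (K ≃ₐ[k] K) S := by
      rintro ⟨b, hb⟩
      obtain ⟨t, ht, h1⟩ := hne' b ((s0.comp (cK : K →+* K)).comp (algebraMap k K))
      have hb' : b • S = S₁ := hb
      rw [hb'] at ht
      exact hmv s0 (h1.symm.trans ht)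
    have hn₂ : S₂ ∉ MulAction.orbit (K ≃ₐ[k] K) S := by
      rintro ⟨b, hb⟩
      obtain ⟨t, ht, h1⟩ := hne' b ι₀
      have hb' : b • S = S₂ := hb
      rw [hb'] at ht
      exact ht h1
    have hsub : insert S₁ (insert S₂ (MulAction.orbit (K ≃ₐ[k] K) S)) ⊆
        {T : Set (K →+* ℂ_[p]) | IsCMType p F K T ∧ P T} := by
      rintro T (rfl | rfl | ⟨b, rfl⟩)
      · exact ⟨hS₁, hP₁⟩
      · exact ⟨hS₂, hP₂⟩
      · exact ⟨isCMType_translate cK hcKu hcK1 hcK hS b, hP b⟩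
    have h1 := Set.ncard_le_ncard hsub (Set.toFinite _)
    rw [Set.ncard_insert_of_notMem (by
        rw [Set.mem_insert_iff, not_or]
        exact ⟨hne12, hn₁⟩) (Set.toFinite _),
      Set.ncard_insert_of_notMem hn₂ (Set.toFinite _)] at h1
    exact h1

end Pool.Agent.V7H53.SX
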