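import Pool.Agent.V7H53.SX.Fail

set_option autoImplicit false
set_option linter.unusedSectionVars false

/-!
# At most one exceptional real quadratic field
-/

namespace Pool.Agent.V7H53.SX

open NumberField TensorProduct Pool.Agent.W289.SL Pool.Agent.W332.SL6
open Pool.Agent.W254.PA (exists_theta LgP Hyp LtE)

variable {p : ℕ} [Fact p.Prime]

/-- complex conjugation of a CM field -/
lemma exists_cK (F K : Type) [Field F] [NumberField F] [IsTotallyReal F] [Field K]
    [NumberField K] [IsTotallyComplex K] [Algebra F K] (hFK : Module.finrank F K = 2) :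
    ∃ c : K ≃ₐ[F] K, c ≠ 1 ∧ (∀ τ : K ≃ₐ[F] K, τ ≠ 1 → τ = c) ∧
      ∀ b : K →+* ℂ, (starRingEnd ℂ).comp b = b.comp (c : K →+* K) := by
  classical
  have : Algebra.IsQuadraticExtension F K := ⟨hFK⟩
  have : FiniteDimensional F K := Module.finite_of_finrank_pos (by omega)
  have : IsGalois F K := inferInstance
  have hcard : Nat.card (K ≃ₐ[F] K) = 2 := by rw [IsGalois.card_aut_eq_finrank, hFK]
  obtain ⟨c, hc1, hcu⟩ := (Nat.card_eq_two_iff' (1 : K ≃ₐ[F] K)).1 hcard
  refine ⟨c, hc1, hcu, fun b => ?_⟩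
  obtain ⟨τ, hτ⟩ := exists_aut (K := F) ((starRingEnd ℂ).comp b) b (by
    have h1 : ComplexEmbedding.IsReal (b.comp (algebraMap F K)) := by
      rw [← InfinitePlace.isReal_mk_iff]
      exact IsTotallyReal.isReal _
    exact h1)
  have hτ1 : τ ≠ 1 := by
    rintro rfl
    refine IsTotallyComplex.complexEmbedding_not_isReal b ?_
    rw [ComplexEmbedding.isReal_iff]
    exact hτ
  rw [hτ, hcu τ hτ1]

/-- the Galois group of `K / k` has order two -/
lemma card_Kk (k F K : Type) [Field k] [NumberField k] [Field F] [NumberField F] [Field K]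
    [NumberField K] [Algebra F K] [Algebra k K] (hk : Module.finrank ℚ k = 2)
    (hF : Module.finrank ℚ F = 2) (hFK : Module.finrank F K = 2) :
    Module.finrank k K = 2 := by
  have h1 : Module.finrank ℚ K = 4 := by
    rw [← Module.finrank_mul_finrank ℚ F K, hF, hFK]
  have h2 := Module.finrank_mul_finrank ℚ k K
  rw [hk, h1] at h2
  omega

section types

variable {k F K M : Type} [Field k] [NumberField k] [IsTotallyComplex k] [Field F]
  [NumberField F] [IsTotallyReal F] [Field K] [NumberField K] [Algebra F K] [Algebra k K]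
  [Field M] [NumberField M] [Algebra k M] [Algebra K M] [IsScalarTower k K M]

/-- the shape of a CM type relative to the two embeddings of `k` -/
lemma types_cases (θ : ℂ_[p] ≃+* ℂ) (hpl : ∀ w w' : InfinitePlace k, w = w')
    (hFK : Module.finrank F K = 2) (inc : M →+* ℂ_[p]) (c : M ≃ₐ[ℚ] M)
    (hc : ∀ y, θ (inc (c y)) = star (θ (inc y))) (S : Set (K →+* ℂ_[p]))
    (hS : IsCMType p F K S) :
    (∃ σ0 : M →+* ℂ_[p], ∀ σ : M →+* ℂ_[p],
        σ.comp (algebraMap k M) = σ0.comp (algebraMap k M) → σ.comp (algebraMap K M) ∈ S) ∨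
      ∃ σ1 σ2 : M →+* ℂ_[p], σ1.comp (algebraMap K M) ∈ S ∧ σ2.comp (algebraMap K M) ∈ S ∧
        σ1.comp (algebraMap k M) = inc.comp (algebraMap k M) ∧
        σ2.comp (algebraMap k M) = (inc.comp (c : M →+* M)).comp (algebraMap k M) := by
  classical
  have : IsTotallyComplex K := isTotallyComplex_of_algebra k K
  obtain ⟨cK, hcK1, -, hcK⟩ := exists_cK F K hFK
  have hSc := hS cK hcK1
  -- the two embeddings of `k`
  have htwo : ∀ s : k →+* ℂ_[p], s = inc.comp (algebraMap k M) ∨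
      s = (inc.comp (c : M →+* M)).comp (algebraMap k M) := by
    intro s
    have h1 := hpl (InfinitePlace.mk ((θ : ℂ_[p] →+* ℂ).comp s))
      (InfinitePlace.mk (((θ : ℂ_[p] →+* ℂ).comp inc).comp (algebraMap k M)))
    rcases InfinitePlace.mk_eq_iff.1 h1 with h2 | h2
    · left
      ext x
      exact θ.injective (RingHom.congr_fun h2 x)
    · right
      ext x
      apply θ.injective
      have h3 := RingHom.congr_fun h2 x
      rw [ComplexEmbedding.conjugate_coe_eq] at h3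
      have h4 : star (θ (s x)) = θ (inc (algebraMap k M x)) := h3
      change θ (s x) = θ (inc (c (algebraMap k M x)))
      rw [hc, ← h4, star_star]
  -- conjugation moves the restriction to `k`
  have hmove : ∀ s : K →+* ℂ_[p],
      (s.comp (cK : K →+* K)).comp (algebraMap k K) ≠ s.comp (algebraMap k K) := by
    intro s h
    refine IsTotallyComplex.complexEmbedding_not_isReal
      (((θ : ℂ_[p] →+* ℂ).comp s).comp (algebraMap k K)) ?_
    rw [ComplexEmbedding.isReal_iff]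
    have h1 := hcK ((θ : ℂ_[p] →+* ℂ).comp s)
    ext x
    rw [ComplexEmbedding.conjugate_coe_eq]
    have h2 := RingHom.congr_fun h1 (algebraMap k K x)
    have h3 := RingHom.congr_fun h x
    have h4 : (starRingEnd ℂ) (θ (s (algebraMap k K x))) = θ (s (cK (algebraMap k K x))) := h2
    have h5 : s (cK (algebraMap k K x)) = s (algebraMap k K x) := h3
    change (starRingEnd ℂ) (θ (s (algebraMap k K x))) = θ (s (algebraMap k K x))
    rw [h4, h5]
  have hres : ∀ σ : M →+* ℂ_[p], (σ.comp (algebraMap K M)).comp (algebraMap k K) =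
      σ.comp (algebraMap k M) := by
    intro σ
    rw [RingHom.comp_assoc, ← IsScalarTower.algebraMap_eq]
  -- extension to `M`
  have hext : ∀ s : K →+* ℂ_[p], ∃ σ : M →+* ℂ_[p], σ.comp (algebraMap K M) = s := by
    intro s
    have : Algebra.IsAlgebraic K M := Algebra.IsAlgebraic.tower_top (K := ℚ) K
    exact exists_ext s
  by_cases h1 : ∃ s ∈ S, s.comp (algebraMap k K) = inc.comp (algebraMap k M)
  · by_cases h2 : ∃ s ∈ S, s.comp (algebraMap k K) =
        (inc.comp (c : M →+* M)).comp (algebraMap k M)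
    · right
      obtain ⟨s1, hs1, h1⟩ := h1
      obtain ⟨s2, hs2, h2⟩ := h2
      obtain ⟨σ1, rfl⟩ := hext s1
      obtain ⟨σ2, rfl⟩ := hext s2
      exact ⟨σ1, σ2, hs1, hs2, by rw [← hres, h1], by rw [← hres, h2]⟩
    · left
      refine ⟨inc, fun σ hσ => ?_⟩
      by_contra hcon
      have h3 : (σ.comp (algebraMap K M)).comp (cK : K →+* K) ∈ S := by
        by_contra h
        exact hcon ((hSc _).2 h)
      rcases htwo (((σ.comp (algebraMap K M)).comp (cK : K →+* K)).comp (algebraMap k K))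
        with h4 | h4
      · exact hmove _ (by rw [h4, hres, hσ])
      · exact h2 ⟨_, h3, h4⟩
  · left
    refine ⟨inc.comp (c : M →+* M), fun σ hσ => ?_⟩
    by_contra hcon
    have h3 : (σ.comp (algebraMap K M)).comp (cK : K →+* K) ∈ S := by
      by_contra h
      exact hcon ((hSc _).2 h)
    rcases htwo (((σ.comp (algebraMap K M)).comp (cK : K →+* K)).comp (algebraMap k K))
      with h4 | h4
    · exact h1 ⟨_, h3, h4⟩
    · exact hmove _ (by rw [h4, hres, hσ])

/-- the image of `F` in `M` -/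
lemma mem_F_iff [IsTotallyComplex K] (θ : ℂ_[p] ≃+* ℂ) (hFK : Module.finrank F K = 2) (inc : M →+* ℂ_[p])
    (c : M ≃ₐ[ℚ] M) (hc : ∀ y, θ (inc (c y)) = star (θ (inc y))) (z : M) :
    (∃ x : F, algebraMap K M (algebraMap F K x) = z) ↔
      (∃ y : K, algebraMap K M y = z) ∧ c z = z := by
  classical
  obtain ⟨cK, hcK1, hcKu, hcK⟩ := exists_cK F K hFK
  have : Algebra.IsQuadraticExtension F K := ⟨hFK⟩
  have : FiniteDimensional F K := Module.finite_of_finrank_pos (by omega)
  have : IsGalois F K := inferInstance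
  have h1 : ∀ y : K, c (algebraMap K M y) = algebraMap K M (cK y) := by
    intro y
    apply inc.injective
    apply θ.injective
    rw [hc]
    have h2 := RingHom.congr_fun (hcK (((θ : ℂ_[p] →+* ℂ).comp inc).comp (algebraMap K M))) y
    exact h2
  constructor
  · rintro ⟨x, rfl⟩
    refine ⟨⟨_, rfl⟩, ?_⟩
    rw [h1, AlgEquiv.commutes]
  · rintro ⟨⟨y, rfl⟩, h⟩
    rw [h1] at h
    have h2 : cK y = y := (algebraMap K M).injective h
    have h3 : y ∈ Set.range (algebraMap F K) := by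
      rw [IsGalois.mem_range_algebraMap_iff_fixed]
      intro f
      by_cases hf : f = 1
      · rw [hf]; rfl
      · rw [hcKu f hf, h2]
    obtain ⟨x, rfl⟩ := h3
    exact ⟨x, rfl⟩

end types

/-- fields with the same image are isomorphic -/
lemma iso_of_range {F₁ F₂ M : Type} [Field F₁] [Field F₂] [Field M] (f₁ : F₁ →+* M)
    (f₂ : F₂ →+* M) (h : ∀ z, (∃ x, f₁ x = z) ↔ ∃ x, f₂ x = z) : Nonempty (F₁ ≃+* F₂) := by
  have h1 : f₁.fieldRange = f₂.fieldRange := by
    ext z
    rw [RingHom.mem_fieldRange, RingHom.mem_fieldRange]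
    exact h z
  exact ⟨(f₁.rangeRestrictFieldEquiv.trans (RingEquiv.subfieldCongr h1)).trans
    f₂.rangeRestrictFieldEquiv.symm⟩

/-- the restriction of `ψ` to `Gal(M / k)` -/
noncomputable def psiM {k E : Type} (M : Type) [Field k] [Field E] [Field M] [Algebra k E]
    [Algebra k M] [Algebra E M] [IsScalarTower k E M] [Normal k E] [Normal k M]
    (ψ : (E ≃ₐ[k] E) →* ℂ_[p]ˣ) : (M ≃ₐ[k] M) →* ℂ_[p]ˣ :=
  ψ.comp (AlgEquiv.restrictNormalHom E)

section field

variable {k E F K H M : Type} [Field k] [NumberField k] [IsTotallyComplex k] [Field E]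
  [NumberField E] [Algebra k E] [IsGalois k E] [Field F] [NumberField F] [IsTotallyReal F]
  [Field K] [NumberField K] [Algebra F K] [Algebra k K] [IsGalois k K]
  [Field H] [NumberField H] [Algebra K H] [Algebra E H] [Algebra k H] [IsScalarTower k K H]
  [IsScalarTower k E H] [IsGalois K H]
  [Field M] [NumberField M] [IsGalois ℚ M] [Algebra k M] [Algebra E M] [Algebra K M] [Algebra H M]
  [IsScalarTower k E M] [IsScalarTower k K M] [IsScalarTower E H M] [IsScalarTower K H M]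
  [IsGalois k M] [FiniteDimensional k M]

/-- transport of a failure to `M` -/
theorem to_M (θ : ℂ_[p] ≃+* ℂ) (ψ : (E ≃ₐ[k] E) →* ℂ_[p]ˣ)
    {L : ℂ_[p] → ℂ_[p]} (hL : IsIwasawaLog p L) (χ : (H ≃ₐ[K] H) →* ℂ_[p]ˣ)
    (hχ : ∀ (τ : H ≃ₐ[K] H) (g : E ≃ₐ[k] E),
      (∀ e : E, τ (algebraMap E H e) = algebraMap E H (g e)) → χ τ = ψ g)
    (S : Set (K →+* ℂ_[p])) (x : UM p H) (hx : InChi χ x) (hx0 : x ≠ 0)
    (hx1 : ∀ σ : H →+* ℂ_[p], σ.comp (algebraMap K H) ∈ S → logLin hL σ x = 0) :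
    ∃ X : UM p M, X ≠ 0 ∧
      (∀ g : M ≃ₐ[k] M, g.restrictNormal K = 1 →
        push (g : M →+* M) X = ((psiM M ψ g : ℂ_[p]ˣ) : ℂ_[p]) • X) ∧
      ∀ σ : M →+* ℂ_[p], σ.comp (algebraMap K M) ∈ S → logLin hL σ X = 0 := by
  refine ⟨push (algebraMap H M) x, push_ne_zero θ _ hx0, ?_, ?_⟩
  · intro g hg
    have hgK : ∀ y : K, g (algebraMap K M y) = algebraMap K M y := by
      intro y
      rw [← AlgEquiv.restrictNormal_commutes, hg]
      rfl
    let gK : M ≃ₐ[K] M := AlgEquiv.ofRingEquiv (f := g.toRingEquiv) hgK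
    have hgK' : ∀ z, gK z = g z := fun z => rfl
    have h1 : ∀ z : H, algebraMap H M (gK.restrictNormal H z) = g (algebraMap H M z) := by
      intro z
      rw [AlgEquiv.restrictNormal_commutes, hgK']
    have h2 : χ (gK.restrictNormal H) = psiM M ψ g := by
      refine hχ _ (g.restrictNormal E) fun e => ?_
      apply (algebraMap H M).injective
      rw [h1, ← IsScalarTower.algebraMap_apply, ← IsScalarTower.algebraMap_apply,
        AlgEquiv.restrictNormal_commutes]
    rw [← h2, push_push]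
    have h3 : (g : M →+* M).comp (algebraMap H M) =
        (algebraMap H M).comp ((gK.restrictNormal H : H ≃ₐ[K] H) : H →+* H) := by
      ext z
      exact (h1 z).symm
    rw [h3, ← push_push, ← actLin_eq, hx, map_smul]
  · intro σ hσ
    rw [logLin_push]
    apply hx1
    rw [RingHom.comp_assoc, ← IsScalarTower.algebraMap_eq]
    exact hσ

end field

section final

variable {k E F₁ K₁ H₁ F₂ K₂ H₂ M : Type} [Field k] [NumberField k] [IsTotallyComplex k] [Field E]
  [NumberField E] [Algebra k E] [IsGalois k E]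
  [Field F₁] [NumberField F₁] [IsTotallyReal F₁]
  [Field K₁] [NumberField K₁] [Algebra F₁ K₁] [Algebra k K₁]
  [Field H₁] [NumberField H₁] [Algebra K₁ H₁] [Algebra E H₁] [Algebra k H₁] [IsScalarTower k K₁ H₁]
  [IsScalarTower k E H₁] [IsGalois K₁ H₁]
  [Field F₂] [NumberField F₂] [IsTotallyReal F₂]
  [Field K₂] [NumberField K₂] [Algebra F₂ K₂] [Algebra k K₂]
  [Field H₂] [NumberField H₂] [Algebra K₂ H₂] [Algebra E H₂] [Algebra k H₂] [IsScalarTower k K₂ H₂]
  [IsScalarTower k E H₂] [IsGalois K₂ H₂]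
  [Field M] [NumberField M] [IsGalois ℚ M] [Algebra k M] [Algebra E M]
  [IsScalarTower k E M] [Algebra K₁ M] [Algebra H₁ M]
  [IsScalarTower k K₁ M] [IsScalarTower E H₁ M] [IsScalarTower K₁ H₁ M]
  [Algebra K₂ M] [Algebra H₂ M]
  [IsScalarTower k K₂ M] [IsScalarTower E H₂ M] [IsScalarTower K₂ H₂ M]

/-- two failures for the same `ψ` have isomorphic real quadratic fields -/
theorem two_fails (hk : Module.finrank ℚ k = 2) (hE : ¬ IsCMField E)
    (ψ : (E ≃ₐ[k] E) →* ℂ_[p]ˣ) (hψ : Function.Injective ψ)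
    (hF₁ : Module.finrank ℚ F₁ = 2) (hFK₁ : Module.finrank F₁ K₁ = 2)
    (hF₂ : Module.finrank ℚ F₂ = 2) (hFK₂ : Module.finrank F₂ K₂ = 2)
    (χ₁ : (H₁ ≃ₐ[K₁] H₁) →* ℂ_[p]ˣ)
    (hχ₁ : ∀ (τ : H₁ ≃ₐ[K₁] H₁) (g : E ≃ₐ[k] E),
      (∀ e : E, τ (algebraMap E H₁ e) = algebraMap E H₁ (g e)) → χ₁ τ = ψ g)
    (χ₂ : (H₂ ≃ₐ[K₂] H₂) →* ℂ_[p]ˣ)
    (hχ₂ : ∀ (τ : H₂ ≃ₐ[K₂] H₂) (g : E ≃ₐ[k] E),
      (∀ e : E, τ (algebraMap E H₂ e) = algebraMap E H₂ (g e)) → χ₂ τ = ψ g)
    (S₁ : Set (K₁ →+* ℂ_[p])) (hS₁ : IsCMType p F₁ K₁ S₁)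
    (S₂ : Set (K₂ →+* ℂ_[p])) (hS₂ : IsCMType p F₂ K₂ S₂) (inc : M →+* ℂ_[p])
    (h₁ : ¬ SigmaLeopoldt p K₁ H₁ S₁ χ₁) (h₂ : ¬ SigmaLeopoldt p K₂ H₂ S₂ χ₂) :
    Nonempty (F₁ ≃+* F₂) := by
  classical
  obtain ⟨θ⟩ := exists_theta p
  have hpl := one_place k hk
  have : Algebra.IsQuadraticExtension ℚ k := ⟨hk⟩
  have : IsGalois ℚ k := inferInstance
  have : IsGalois k M := IsGalois.tower_top_of_isGalois ℚ k M
  have : FiniteDimensional k M := Module.Finite.of_restrictScalars_finite ℚ k M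
  have hKk₁ := card_Kk k F₁ K₁ hk hF₁ hFK₁
  have hKk₂ := card_Kk k F₂ K₂ hk hF₂ hFK₂
  have : Algebra.IsQuadraticExtension k K₁ := ⟨hKk₁⟩
  have : Algebra.IsQuadraticExtension k K₂ := ⟨hKk₂⟩
  have : FiniteDimensional k K₁ := Module.Finite.of_restrictScalars_finite ℚ k K₁
  have : FiniteDimensional k K₂ := Module.Finite.of_restrictScalars_finite ℚ k K₂
  have : IsGalois k K₁ := inferInstance
  have : IsGalois k K₂ := inferInstance
  have : IsTotallyComplex K₁ := isTotallyComplex_of_algebra k K₁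
  have : IsTotallyComplex K₂ := isTotallyComplex_of_algebra k K₂
  have hc₁ : Nat.card (K₁ ≃ₐ[k] K₁) = 2 := by rw [IsGalois.card_aut_eq_finrank, hKk₁]
  have hc₂ : Nat.card (K₂ ≃ₐ[k] K₂) = 2 := by rw [IsGalois.card_aut_eq_finrank, hKk₂]
  obtain ⟨c, hc⟩ := exists_conj (M := M) ((θ : ℂ_[p] →+* ℂ).comp inc)
  have hc' : ∀ y, θ (inc (c y)) = star (θ (inc y)) := hc
  unfold SigmaLeopoldt at h₁ h₂
  push Not at h₁ h₂
  obtain ⟨L, hL, x₁, hx₁, hx1₁, hx0₁⟩ := h₁
  obtain ⟨L', hL', x₂, hx₂, hx1₂', hx0₂⟩ := h₂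
  have hx1₂ : ∀ σ : H₂ →+* ℂ_[p], σ.comp (algebraMap K₂ H₂) ∈ S₂ → logLin hL σ x₂ = 0 := by
    intro σ hσ
    rw [logLin_unique hL hL']
    exact hx1₂' σ hσ
  obtain ⟨X₁, hX0₁, hX₁, hX1₁⟩ := to_M (M := M) θ ψ hL χ₁ hχ₁ S₁ x₁ hx₁ hx0₁ hx1₁
  obtain ⟨X₂, hX0₂, hX₂, hX1₂⟩ := to_M (M := M) θ ψ hL χ₂ hχ₂ S₂ x₂ hx₂ hx0₂ hx1₂
  obtain ⟨u, w₁, huA, hwA₁, huχ, hwχ₁, hu0, hw0₁, ε₁, hε₁, he₁⟩ :=
    fail_data θ hpl hL hc₁ inc c (psiM M ψ) S₁
      (types_cases (F := F₁) θ hpl hFK₁ inc c hc' S₁ hS₁) X₁ hX0₁ hX₁ hX1₁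
  obtain ⟨u', w₂, huA', hwA₂, huχ', hwχ₂, hu0', hw0₂, ε₂, hε₂, he₂'⟩ :=
    fail_data θ hpl hL hc₂ inc c (psiM M ψ) S₂
      (types_cases (F := F₂) θ hpl hFK₂ inc c hc' S₂ hS₂) X₂ hX0₂ hX₂ hX1₂
  -- the same `u`
  have he₂ : ε₂ * (logLin hL (inc.comp (c : M →+* M)) w₂ * logLin hL inc u) =
      logLin hL inc w₂ * logLin hL (inc.comp (c : M →+* M)) u := by
    obtain ⟨a, ha⟩ := one_dim θ hpl huχ huχ' hu0'
    rw [ha, map_smul, map_smul, smul_eq_mul, smul_eq_mul]
    linear_combination a * he₂'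
  have hlu : logLin hL inc u ≠ 0 := fun h => hu0 (eq_zero_of_log hL inc huA h)
  set r : ℂ_[p] := logLin hL (inc.comp (c : M →+* M)) u / logLin hL inc u with hrdef
  have hru : logLin hL (inc.comp (c : M →+* M)) u = r * logLin hL inc u := by
    rw [hrdef, div_mul_cancel₀ _ hlu]
  have hr : ¬ IsAlgebraic ℚ r := by
    intro hr
    apply hE
    refine isCM_of_inv hk ψ hψ ((θ : ℂ_[p] →+* ℂ).comp inc) c hc ?_
    intro g g' hg
    exact inv_of_alg θ hL inc (c : M →+* M) huA huχ hu0 r hr hru g g' hg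
  by_contra hiso
  -- the three characters are distinct
  have hne1 : ∀ {K : Type} [Field K] [NumberField K] [Algebra k K] [Algebra K M]
      [IsScalarTower k K M] [IsGalois k K] (hK : Nat.card (K ≃ₐ[k] K) = 2),
      sgnM p k K M hK ≠ 1 := by
    intro K _ _ _ _ _ _ hK h
    obtain ⟨t0, ht0, -⟩ := (Nat.card_eq_two_iff' (1 : K ≃ₐ[k] K)).1 hK
    obtain ⟨t, ht⟩ := AlgEquiv.restrictNormalHom_surjective (F := k) (K₁ := K) M t0
    have h1 := DFunLike.congr_fun h t
    rw [MonoidHom.one_apply, sgnM_eq_one] at h1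
    apply ht0
    rw [← ht]
    exact h1
  have hne12 : sgnM p k K₁ M hc₁ ≠ sgnM p k K₂ M hc₂ := by
    intro h
    apply hiso
    have hfix : ∀ {K : Type} [Field K] [NumberField K] [Algebra k K] [Algebra K M]
        [IsScalarTower k K M] [IsGalois k K] (hK : Nat.card (K ≃ₐ[k] K) = 2) (z : M),
        (∃ y : K, algebraMap K M y = z) ↔
          ∀ g : M ≃ₐ[k] M, sgnM p k K M hK g = 1 → g z = z := by
      intro K _ _ _ _ _ _ hK z
      constructor
      · rintro ⟨y, rfl⟩ g hg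
        rw [sgnM_eq_one] at hg
        rw [← AlgEquiv.restrictNormal_commutes, hg]
        rfl
      · intro hz
        let E' : IntermediateField k M := (IsScalarTower.toAlgHom k K M).fieldRange
        have hE' : ∀ y : K, algebraMap K M y ∈ E' := fun y => ⟨y, rfl⟩
        have h1 : z ∈ E' := by
          rw [← IsGalois.fixedField_fixingSubgroup E', IntermediateField.mem_fixedField_iff]
          intro γ hγ
          rw [IntermediateField.mem_fixingSubgroup_iff] at hγ
          apply hz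
          rw [sgnM_eq_one]
          ext y
          apply (algebraMap K M).injective
          rw [AlgEquiv.restrictNormal_commutes]
          exact hγ _ (hE' y)
        obtain ⟨y, hy⟩ := h1
        exact ⟨y, hy⟩
    refine iso_of_range ((algebraMap K₁ M).comp (algebraMap F₁ K₁))
      ((algebraMap K₂ M).comp (algebraMap F₂ K₂)) fun z => ?_
    have h3 := mem_F_iff (F := F₁) (K := K₁) θ hFK₁ inc c hc' z
    have h4 := mem_F_iff (F := F₂) (K := K₂) θ hFK₂ inc c hc' z
    change (∃ x, algebraMap K₁ M (algebraMap F₁ K₁ x) = z) ↔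
      ∃ x, algebraMap K₂ M (algebraMap F₂ K₂ x) = z
    rw [h3, h4, hfix hc₁, hfix hc₂, h]
  -- independence
  have hli : ∀ g : Fin 3 → ℂ_[p], (∀ j, IsAlgebraic ℚ (g j)) →
      ∑ j, g j • (![u, w₁, w₂] : Fin 3 → UM p M) j = 0 → ∀ j, g j = 0 := by
    intro g _ hg j
    have h1 := indep_eig (k := k) (M := M) (Finset.univ : Finset (Fin 3))
      ![psiM M ψ, psiM M ψ * sgnM p k K₁ M hc₁, psiM M ψ * sgnM p k K₂ M hc₂]
      (by
        intro i _ j _ hij
        have hcan : ∀ f g : (M ≃ₐ[k] M) →* ℂ_[p]ˣ, f = f * g → g = 1 := by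
          intro f g h
          ext1 x
          have h2 := DFunLike.congr_fun h x
          rw [MonoidHom.mul_apply] at h2
          exact mul_eq_left.1 h2.symm
        have e1 : psiM M ψ ≠ psiM M ψ * sgnM p k K₁ M hc₁ := fun h =>
          hne1 hc₁ (hcan _ _ h)
        have e2 : psiM M ψ ≠ psiM M ψ * sgnM p k K₂ M hc₂ := fun h =>
          hne1 hc₂ (hcan _ _ h)
        have e3 : psiM M ψ * sgnM p k K₁ M hc₁ ≠ psiM M ψ * sgnM p k K₂ M hc₂ := fun h =>
          hne12 (mul_left_cancel h)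
        fin_cases i <;> fin_cases j
        · rfl
        · exact absurd hij e1
        · exact absurd hij e2
        · exact absurd hij.symm e1
        · rfl
        · exact absurd hij e3
        · exact absurd hij.symm e2
        · exact absurd hij.symm e3
        · rfl)
      (fun j => g j • (![u, w₁, w₂] : Fin 3 → UM p M) j)
      (by
        intro i _
        fin_cases i
        · exact huχ.smul _
        · exact hwχ₁.smul _
        · exact hwχ₂.smul _) hg j (Finset.mem_univ j)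
    rcases smul_eq_zero.1 h1 with h2 | h2
    · exact h2
    · exfalso
      fin_cases j
      · exact hu0 h2
      · exact hw0₁ h2
      · exact hw0₂ h2
  refine six hL inc (c : M →+* M) ![u, w₁, w₂] ?_ hli ![1, ε₁, ε₂] ?_ r hr ?_
  · intro j
    fin_cases j
    · exact huA
    · exact hwA₁
    · exact hwA₂
  · intro j
    fin_cases j
    · exact isAlgebraic_one
    · exact hε₁
    · exact hε₂
  · intro j
    fin_cases j
    · change 1 * logLin hL (inc.comp (c : M →+* M)) u = r * logLin hL inc u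
      rw [one_mul, hru]
    · change ε₁ * logLin hL (inc.comp (c : M →+* M)) w₁ = r * logLin hL inc w₁
      apply mul_right_cancel₀ hlu
      rw [hru] at he₁
      linear_combination he₁
    · change ε₂ * logLin hL (inc.comp (c : M →+* M)) w₂ = r * logLin hL inc w₂
      apply mul_right_cancel₀ hlu
      rw [hru] at he₂
      linear_combination he₂

end final

/-- a Galois extension of `ℚ` receiving all embeddings of two fields -/
lemma exists_big2 (p : ℕ) [Fact p.Prime] (H₁ H₂ : Type) [Field H₁] [NumberField H₁] [Field H₂]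
    [NumberField H₂] :
    ∃ (M : Type) (_ : Field M) (_ : NumberField M) (_ : IsGalois ℚ M) (inc : M →+* ℂ_[p]),
      (∀ σ : H₁ →+* ℂ_[p], ∃ τ : H₁ →+* M, inc.comp τ = σ) ∧
      ∀ σ : H₂ →+* ℂ_[p], ∃ τ : H₂ →+* M, inc.comp τ = σ := by
  have hN₁ : IsNormalClosure ℚ H₁ (IntermediateField.normalClosure ℚ H₁ ℂ_[p]) :=
    Algebra.IsAlgebraic.isNormalClosure_normalClosure (fun x => IsAlgClosed.splits _)
  have hN₂ : IsNormalClosure ℚ H₂ (IntermediateField.normalClosure ℚ H₂ ℂ_[p]) :=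
    Algebra.IsAlgebraic.isNormalClosure_normalClosure (fun x => IsAlgClosed.splits _)
  have hn₁ : Normal ℚ (IntermediateField.normalClosure ℚ H₁ ℂ_[p]) := hN₁.normal
  have hn₂ : Normal ℚ (IntermediateField.normalClosure ℚ H₂ ℂ_[p]) := hN₂.normal
  let N : IntermediateField ℚ ℂ_[p] := IntermediateField.normalClosure ℚ H₁ ℂ_[p] ⊔
    IntermediateField.normalClosure ℚ H₂ ℂ_[p]
  have hn' := @IntermediateField.normal_sup ℚ ℂ_[p] _ _ _
    (IntermediateField.normalClosure ℚ H₁ ℂ_[p]) (IntermediateField.normalClosure ℚ H₂ ℂ_[p])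
    (by convert hn₁; exact Subsingleton.elim _ _) (by convert hn₂; exact Subsingleton.elim _ _)
  have hn : Normal ℚ N := by
    convert hn'
    exact Subsingleton.elim _ _
  have hfd : FiniteDimensional ℚ N := inferInstance
  have hnf : NumberField N :=
    { to_charZero := inferInstance
      to_finiteDimensional := by convert hfd }
  have hg : IsGalois ℚ N := {}
  refine ⟨N, inferInstance, hnf, by convert hg, (N.val : _ →+* ℂ_[p]), ?_, ?_⟩
  · intro σ
    let σ' : H₁ →ₐ[ℚ] ℂ_[p] := RingHom.toRatAlgHom σ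
    let τ : H₁ →ₐ[ℚ] N.toSubalgebra := σ'.codRestrict _ (fun x =>
      (le_sup_left : _ ≤ N) (σ'.fieldRange_le_normalClosure ⟨x, rfl⟩))
    refine ⟨τ.toRingHom, ?_⟩
    ext y
    rfl
  · intro σ
    let σ' : H₂ →ₐ[ℚ] ℂ_[p] := RingHom.toRatAlgHom σ
    let τ : H₂ →ₐ[ℚ] N.toSubalgebra := σ'.codRestrict _ (fun x =>
      (le_sup_right : _ ≤ N) (σ'.fieldRange_le_normalClosure ⟨x, rfl⟩))
    refine ⟨τ.toRingHom, ?_⟩
    ext y
    rfl

end Pool.Agent.V7H53.SX
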