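import Mathlib

set_option autoImplicit false
set_option linter.unusedSectionVars false

/-!
# Principal minors, and duality of finite commutative groups
-/

namespace Pool.Agent.V7H53.SX

open Matrix

section minors

variable {n F : Type} [Fintype n] [DecidableEq n] [Field F]

/-- a vector supported on `s` whose image vanishes on `s` -/
lemma minor_zero (C : Matrix n n F) (s : Finset n) (Y : n → F) (hY : Y ≠ 0)
    (h1 : ∀ i, i ∉ s → Y i = 0) (h2 : ∀ i ∈ s, (C *ᵥ Y) i = 0) :
    (C.submatrix (Subtype.val : s → n) (Subtype.val : s → n)).det = 0 := by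
  rw [← Matrix.exists_mulVec_eq_zero_iff]
  refine ⟨fun i => Y i, ?_, ?_⟩
  · intro h
    apply hY
    funext i
    by_cases hi : i ∈ s
    · exact congrFun h ⟨i, hi⟩
    · exact h1 i hi
  · funext i
    rw [Pi.zero_apply, ← h2 i i.2]
    simp only [Matrix.mulVec, dotProduct, Matrix.submatrix_apply]
    rw [Finset.sum_coe_sort s (fun j => C i j * Y j)]
    refine Finset.sum_subset (Finset.subset_univ s) fun j _ hj => ?_
    rw [h1 j hj, mul_zero]

/-- if all proper principal minors vanish, all eigenvalues have the same `n`-th power -/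
lemma pow_eq (C : Matrix n n F)
    (hC : ∀ s : Finset n, s.Nonempty → s ≠ Finset.univ →
      (C.submatrix (Subtype.val : s → n) (Subtype.val : s → n)).det = 0)
    (hn : 0 < Fintype.card n) (r : F) (v : n → F) (hv : v ≠ 0) (h : C *ᵥ v = r • v) :
    r ^ Fintype.card n = -(C.charpoly.coeff 0) := by
  have h1 : C.charpoly.eval r = 0 := by
    rw [Matrix.eval_charpoly, ← Matrix.exists_mulVec_eq_zero_iff]
    refine ⟨v, hv, ?_⟩
    rw [Matrix.sub_mulVec, h, sub_eq_zero]
    funext i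
    simp [Matrix.scalar_apply, Matrix.mulVec_diagonal]
  have hco : ∀ i, 0 < i → i < Fintype.card n → C.charpoly.coeff i = 0 := by
    intro i hi0 hi1
    have h2 := Matrix.charpoly_coeff_eq_sum_minors C (Fintype.card n - i) (Nat.sub_le _ _)
    have h3 : Fintype.card n - (Fintype.card n - i) = i := by omega
    rw [h3] at h2
    rw [h2, Finset.sum_eq_zero, mul_zero]
    intro s hs
    have hs2 := (Finset.mem_powersetCard.1 hs).2
    apply hC
    · rw [← Finset.card_pos]
      omega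
    · rintro rfl
      rw [Finset.card_univ] at hs2
      omega
  have hlast : C.charpoly.coeff (Fintype.card n) = 1 := by
    have h2 := C.charpoly_monic
    rw [Polynomial.Monic, Polynomial.leadingCoeff, Matrix.charpoly_natDegree_eq_dim] at h2
    exact h2
  rw [Polynomial.eval_eq_sum_range, Matrix.charpoly_natDegree_eq_dim, Finset.sum_range_succ,
    hlast, one_mul, Finset.sum_eq_single_of_mem 0 (Finset.mem_range.2 hn) (by
      intro i hi hi0
      rw [hco i (Nat.pos_of_ne_zero hi0) (Finset.mem_range.1 hi), zero_mul]), pow_zero,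
    mul_one] at h1
  linear_combination h1

/-- if the principal minors of size not divisible by `q` vanish, the characteristic polynomial is a
polynomial in `X ^ q` -/
lemma eval_zeta (C : Matrix n n F) (q : ℕ) (hq : q ∣ Fintype.card n)
    (hC : ∀ s : Finset n, ¬ q ∣ s.card →
      (C.submatrix (Subtype.val : s → n) (Subtype.val : s → n)).det = 0)
    (ζ : F) (hζ : ζ ^ q = 1) (x : F) : C.charpoly.eval (ζ * x) = C.charpoly.eval x := by
  have hco : ∀ i, i ≤ Fintype.card n → ¬ q ∣ i → C.charpoly.coeff i = 0 := by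
    intro i hi0 hi1
    have h2 := Matrix.charpoly_coeff_eq_sum_minors C (Fintype.card n - i) (Nat.sub_le _ _)
    have h3 : Fintype.card n - (Fintype.card n - i) = i := by omega
    rw [h3] at h2
    rw [h2, Finset.sum_eq_zero, mul_zero]
    intro s hs
    have hs2 := (Finset.mem_powersetCard.1 hs).2
    apply hC
    rw [hs2]
    intro h4
    apply hi1
    rw [← h3]
    exact Nat.dvd_sub hq h4
  rw [Polynomial.eval_eq_sum_range, Polynomial.eval_eq_sum_range,
    Matrix.charpoly_natDegree_eq_dim]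
  refine Finset.sum_congr rfl fun i hi => ?_
  have hi' : i ≤ Fintype.card n := by
    have := Finset.mem_range.1 hi
    omega
  by_cases h : q ∣ i
  · obtain ⟨j, rfl⟩ := h
    rw [mul_pow, pow_mul ζ, hζ, one_pow, one_mul]
  · rw [hco i hi' h, zero_mul, zero_mul]

/-- translation of a principal minor -/
lemma minor_equiv (C : Matrix n n F) (e : n ≃ n) (he : ∀ i j, C (e i) (e j) = C i j)
    (s t : Finset n) (hst : ∀ i, i ∈ s ↔ e i ∈ t) :
    (C.submatrix (Subtype.val : s → n) (Subtype.val : s → n)).det =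
      (C.submatrix (Subtype.val : t → n) (Subtype.val : t → n)).det := by
  let f : s ≃ t := e.subtypeEquiv hst
  rw [← Matrix.det_submatrix_equiv_self f
    (C.submatrix (Subtype.val : t → n) (Subtype.val : t → n))]
  congr 1
  ext i j
  exact (he _ _).symm

end minors

section dual

variable {G F : Type} [Group G] [Finite G] [Field F] [IsAlgClosed F] [CharZero F]

lemma exists_dual_ne (hG : ∀ a b : G, a * b = b * a) {a : G} (ha : a ≠ 1) :
    ∃ φ : G →* Fˣ, φ a ≠ 1 := by
  letI : CommGroup G := { (inferInstance : Group G) with mul_comm := hG }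
  exact CommGroup.exists_apply_ne_one_of_hasEnoughRootsOfUnity G F ha

lemma card_dual (hG : ∀ a b : G, a * b = b * a) : Nat.card (G →* Fˣ) = Nat.card G := by
  letI : CommGroup G := { (inferInstance : Group G) with mul_comm := hG }
  exact CommGroup.card_monoidHom_of_hasEnoughRootsOfUnity G F

lemma finite_dual : Finite (G →* Fˣ) := inferInstance

lemma sum_dual [Fintype (G →* Fˣ)] (hG : ∀ a b : G, a * b = b * a) {a : G} (ha : a ≠ 1) :
    ∑ φ : G →* Fˣ, ((φ a : Fˣ) : F) = 0 := by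
  obtain ⟨φ₀, h0⟩ := exists_dual_ne (F := F) hG ha
  have h1 : ∑ φ : G →* Fˣ, ((φ a : Fˣ) : F) = ((φ₀ a : Fˣ) : F) * ∑ φ : G →* Fˣ, ((φ a : Fˣ) : F) := by
    rw [Finset.mul_sum, ← Equiv.sum_comp (Equiv.mulLeft φ₀)]
    refine Finset.sum_congr rfl fun φ _ => ?_
    rw [Equiv.coe_mulLeft, MonoidHom.mul_apply, Units.val_mul]
  by_contra hne
  apply h0
  apply Units.ext
  have h2 : ((φ₀ a : Fˣ) : F) * ∑ φ : G →* Fˣ, ((φ a : Fˣ) : F) =
      1 * ∑ φ : G →* Fˣ, ((φ a : Fˣ) : F) := by rw [one_mul, ← h1]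
  exact mul_right_cancel₀ hne h2

lemma sum_group [Fintype G] {φ : G →* Fˣ} (hφ : φ ≠ 1) : ∑ a : G, ((φ a : Fˣ) : F) = 0 := by
  obtain ⟨a₀, h0⟩ : ∃ a₀, φ a₀ ≠ 1 := by
    by_contra hcon
    push Not at hcon
    exact hφ (MonoidHom.ext hcon)
  have h1 : ∑ a : G, ((φ a : Fˣ) : F) = ((φ a₀ : Fˣ) : F) * ∑ a : G, ((φ a : Fˣ) : F) := by
    rw [Finset.mul_sum, ← Equiv.sum_comp (Equiv.mulLeft a₀)]
    refine Finset.sum_congr rfl fun φ _ => ?_
    rw [Equiv.coe_mulLeft, map_mul, Units.val_mul]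
  by_contra hne
  apply h0
  apply Units.ext
  have h2 : ((φ a₀ : Fˣ) : F) * ∑ a : G, ((φ a : Fˣ) : F) = 1 * ∑ a : G, ((φ a : Fˣ) : F) := by
    rw [one_mul, ← h1]
  exact mul_right_cancel₀ hne h2

/-- the convolution matrix with eigenvalues `r φ` -/
noncomputable def circ [Fintype (G →* Fˣ)] [Fintype G] (r : (G →* Fˣ) → F) : Matrix G G F :=
  fun a b => (Fintype.card G : F)⁻¹ * ∑ φ : G →* Fˣ, r φ * ((φ a : Fˣ) : F) * ((φ b⁻¹ : Fˣ) : F)

lemma circ_eig [Fintype (G →* Fˣ)] [Fintype G] (r : (G →* Fˣ) → F) (φ₀ : G →* Fˣ) (a : G) :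
    ∑ b : G, circ r a b * ((φ₀ b : Fˣ) : F) = r φ₀ * ((φ₀ a : Fˣ) : F) := by
  classical
  have hcard : (Fintype.card G : F) ≠ 0 := by exact_mod_cast Fintype.card_ne_zero
  have h1 : ∀ b : G, circ r a b * ((φ₀ b : Fˣ) : F) =
      (Fintype.card G : F)⁻¹ * ∑ φ : G →* Fˣ, r φ * ((φ a : Fˣ) : F) *
        (((φ⁻¹ * φ₀) b : Fˣ) : F) := by
    intro b
    unfold circ
    rw [mul_assoc, Finset.sum_mul]
    congr 1
    refine Finset.sum_congr rfl fun φ _ => ?_
    rw [MonoidHom.mul_apply, MonoidHom.inv_apply, map_inv, Units.val_mul]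
    ring
  rw [Finset.sum_congr rfl (fun b _ => h1 b), ← Finset.mul_sum, Finset.sum_comm]
  have h2 : ∀ φ : G →* Fˣ, ∑ b : G, r φ * ((φ a : Fˣ) : F) * (((φ⁻¹ * φ₀) b : Fˣ) : F) =
      if φ = φ₀ then (Fintype.card G : F) * (r φ₀ * ((φ₀ a : Fˣ) : F)) else 0 := by
    intro φ
    rw [← Finset.mul_sum]
    split_ifs with h
    · subst h
      have h3 : ∀ b : G, (((φ⁻¹ * φ) b : Fˣ) : F) = 1 := by
        intro b
        rw [MonoidHom.mul_apply, MonoidHom.inv_apply, inv_mul_cancel, Units.val_one]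
      rw [Finset.sum_congr rfl (fun b _ => h3 b), Finset.sum_const, Finset.card_univ,
        nsmul_eq_mul, mul_one]
      ring
    · have h3 : φ⁻¹ * φ₀ ≠ 1 := by
        intro h4
        exact h (inv_mul_eq_one.1 h4)
      rw [sum_group h3, mul_zero]
  rw [Finset.sum_congr rfl (fun φ _ => h2 φ), Finset.sum_ite_eq' Finset.univ φ₀,
    if_pos (Finset.mem_univ _), ← mul_assoc, inv_mul_cancel₀ hcard, one_mul]

lemma circ_trans [Fintype (G →* Fˣ)] [Fintype G] (r : (G →* Fˣ) → F) (g a b : G) :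
    circ r (a * g) (b * g) = circ r a b := by
  unfold circ
  congr 1
  refine Finset.sum_congr rfl fun φ _ => ?_
  have h1 : ((φ g : Fˣ) : F) * ((φ g⁻¹ : Fˣ) : F) = 1 := by
    rw [← Units.val_mul, ← map_mul, mul_inv_cancel, map_one, Units.val_one]
  rw [_root_.mul_inv_rev, map_mul, map_mul, Units.val_mul, Units.val_mul]
  linear_combination (r φ * ((φ a : Fˣ) : F) * ((φ b⁻¹ : Fˣ) : F)) * h1

/-- Fourier inversion: the coefficients are determined by the function -/
lemma fourier_inj [Fintype (G →* Fˣ)] [Fintype G] (y : (G →* Fˣ) → F)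
    (h : ∀ a : G, ∑ φ : G →* Fˣ, y φ * ((φ a : Fˣ) : F) = 0) (φ₀ : G →* Fˣ) : y φ₀ = 0 := by
  classical
  have hcard : (Fintype.card G : F) ≠ 0 := by exact_mod_cast Fintype.card_ne_zero
  have h1 : ∑ a : G, (∑ φ : G →* Fˣ, y φ * ((φ a : Fˣ) : F)) * ((φ₀⁻¹ a : Fˣ) : F) = 0 := by
    refine Finset.sum_eq_zero fun a _ => ?_
    rw [h a, zero_mul]
  simp only [Finset.sum_mul] at h1
  rw [Finset.sum_comm] at h1
  have h2 : ∀ φ : G →* Fˣ, ∑ a : G, y φ * ((φ a : Fˣ) : F) * ((φ₀⁻¹ a : Fˣ) : F) =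
      if φ = φ₀ then (Fintype.card G : F) * y φ₀ else 0 := by
    intro φ
    have h4 : ∀ a : G, y φ * ((φ a : Fˣ) : F) * ((φ₀⁻¹ a : Fˣ) : F) =
        y φ * (((φ * φ₀⁻¹) a : Fˣ) : F) := by
      intro a
      rw [MonoidHom.mul_apply, Units.val_mul]
      ring
    rw [Finset.sum_congr rfl (fun a _ => h4 a), ← Finset.mul_sum]
    split_ifs with h
    · subst h
      have h3 : ∀ b : G, (((φ * φ⁻¹) b : Fˣ) : F) = 1 := by
        intro b
        rw [MonoidHom.mul_apply, MonoidHom.inv_apply, mul_inv_cancel, Units.val_one]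
      rw [Finset.sum_congr rfl (fun b _ => h3 b), Finset.sum_const, Finset.card_univ,
        nsmul_eq_mul, mul_one]
      ring
    · have h3 : φ * φ₀⁻¹ ≠ 1 := by
        intro h4
        exact h (mul_inv_eq_one.1 h4)
      rw [sum_group h3, mul_zero]
  rw [Finset.sum_congr rfl (fun φ _ => h2 φ), Finset.sum_ite_eq' Finset.univ φ₀,
    if_pos (Finset.mem_univ _)] at h1
  exact (mul_eq_zero.1 h1).resolve_left hcard

/-- the eigenvalues of the convolution matrix -/
lemma eig_of_root [Fintype (G →* Fˣ)] [Fintype G] [DecidableEq G]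
    (hG : ∀ a b : G, a * b = b * a) (r : (G →* Fˣ) → F) (ρ : F)
    (hρ : (circ r).charpoly.eval ρ = 0) : ∃ φ : G →* Fˣ, r φ = ρ := by
  classical
  by_contra hcon
  push Not at hcon
  rw [Matrix.eval_charpoly, ← Matrix.exists_mulVec_eq_zero_iff] at hρ
  obtain ⟨v, hv, h⟩ := hρ
  have h1 : ∀ a : G, ∑ b : G, circ r a b * v b = ρ * v a := by
    intro a
    have h2 := congrFun h a
    rw [Matrix.sub_mulVec, Pi.sub_apply, Pi.zero_apply, sub_eq_zero] at h2
    have h3 : (Matrix.scalar G ρ *ᵥ v) a = ρ * v a := by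
      simp [Matrix.scalar_apply, Matrix.mulVec_diagonal]
    rw [h3] at h2
    exact h2.symm
  -- the Fourier coefficients of `v`
  have hcard : (Fintype.card G : F) ≠ 0 := by exact_mod_cast Fintype.card_ne_zero
  have h2 : ∀ φ₀ : G →* Fˣ, ∑ b : G, ((φ₀ b⁻¹ : Fˣ) : F) * v b = 0 := by
    intro φ₀
    have h3 : ∑ a : G, ((φ₀ a⁻¹ : Fˣ) : F) * (∑ b : G, circ r a b * v b) =
        r φ₀ * ∑ b : G, ((φ₀ b⁻¹ : Fˣ) : F) * v b := by
      simp only [Finset.mul_sum]
      rw [Finset.sum_comm]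
      refine Finset.sum_congr rfl fun b _ => ?_
      have h4 : ∑ a : G, ((φ₀ a⁻¹ : Fˣ) : F) * circ r a b = r φ₀ * ((φ₀ b⁻¹ : Fˣ) : F) := by
        have h5 : ∀ a : G, ((φ₀ a⁻¹ : Fˣ) : F) * circ r a b = (Fintype.card G : F)⁻¹ *
            ∑ φ : G →* Fˣ, r φ * ((φ b⁻¹ : Fˣ) : F) * (((φ * φ₀⁻¹) a : Fˣ) : F) := by
          intro a
          unfold circ
          rw [Finset.mul_sum, Finset.mul_sum, Finset.mul_sum]
          refine Finset.sum_congr rfl fun φ _ => ?_
          rw [MonoidHom.mul_apply, MonoidHom.inv_apply, map_inv φ₀, Units.val_mul]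
          ring
        rw [Finset.sum_congr rfl (fun a _ => h5 a), ← Finset.mul_sum, Finset.sum_comm]
        have h6 : ∀ φ : G →* Fˣ, ∑ a : G, r φ * ((φ b⁻¹ : Fˣ) : F) *
            (((φ * φ₀⁻¹) a : Fˣ) : F) =
            if φ = φ₀ then (Fintype.card G : F) * (r φ₀ * ((φ₀ b⁻¹ : Fˣ) : F)) else 0 := by
          intro φ
          rw [← Finset.mul_sum]
          split_ifs with h
          · subst h
            have h3 : ∀ b : G, (((φ * φ⁻¹) b : Fˣ) : F) = 1 := by
              intro b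
              rw [MonoidHom.mul_apply, MonoidHom.inv_apply, mul_inv_cancel, Units.val_one]
            rw [Finset.sum_congr rfl (fun b _ => h3 b), Finset.sum_const, Finset.card_univ,
              nsmul_eq_mul, mul_one]
            ring
          · have h3 : φ * φ₀⁻¹ ≠ 1 := by
              intro h4
              exact h (mul_inv_eq_one.1 h4)
            rw [sum_group h3, mul_zero]
        rw [Finset.sum_congr rfl (fun φ _ => h6 φ), Finset.sum_ite_eq' Finset.univ φ₀,
          if_pos (Finset.mem_univ _), ← mul_assoc, inv_mul_cancel₀ hcard, one_mul]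
      have h5 : ∀ a : G, ((φ₀ a⁻¹ : Fˣ) : F) * (circ r a b * v b) =
          (((φ₀ a⁻¹ : Fˣ) : F) * circ r a b) * v b := fun a => by ring
      rw [Finset.sum_congr rfl (fun a _ => h5 a), ← Finset.sum_mul, h4]
      ring
    rw [Finset.sum_congr rfl (fun a _ => by rw [h1 a])] at h3
    have h4 : ∑ a : G, ((φ₀ a⁻¹ : Fˣ) : F) * (ρ * v a) =
        ρ * ∑ b : G, ((φ₀ b⁻¹ : Fˣ) : F) * v b := by
      rw [Finset.mul_sum]
      refine Finset.sum_congr rfl fun a _ => ?_
      ring
    rw [h4] at h3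
    by_contra hne
    exact hcon φ₀ (mul_right_cancel₀ hne h3).symm
  apply hv
  funext a
  have h3 : ∑ φ : G →* Fˣ, ((φ a : Fˣ) : F) * (∑ b : G, ((φ b⁻¹ : Fˣ) : F) * v b) = 0 :=
    Finset.sum_eq_zero fun φ _ => by rw [h2 φ, mul_zero]
  simp only [Finset.mul_sum] at h3
  rw [Finset.sum_comm] at h3
  have h4 : ∀ b : G, ∑ φ : G →* Fˣ, ((φ a : Fˣ) : F) * (((φ b⁻¹ : Fˣ) : F) * v b) =
      if b = a then (Fintype.card (G →* Fˣ) : F) * v a else 0 := by
    intro b
    have h5 : ∀ φ : G →* Fˣ, ((φ a : Fˣ) : F) * (((φ b⁻¹ : Fˣ) : F) * v b) =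
        ((φ (a * b⁻¹) : Fˣ) : F) * v b := by
      intro φ
      rw [map_mul, Units.val_mul]
      ring
    rw [Finset.sum_congr rfl (fun φ _ => h5 φ), ← Finset.sum_mul]
    split_ifs with h
    · subst h
      have h6 : ∀ φ : G →* Fˣ, ((φ (b * b⁻¹) : Fˣ) : F) = 1 := by
        intro φ
        rw [mul_inv_cancel, map_one, Units.val_one]
      rw [Finset.sum_congr rfl (fun φ _ => h6 φ), Finset.sum_const, Finset.card_univ,
        nsmul_eq_mul, mul_one]
    · rw [sum_dual (F := F) hG (fun h6 => h (mul_inv_eq_one.1 h6).symm), zero_mul]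
  rw [Finset.sum_congr rfl (fun b _ => h4 b), Finset.sum_ite_eq' Finset.univ a,
    if_pos (Finset.mem_univ _)] at h3
  have h5 : (Fintype.card (G →* Fˣ) : F) ≠ 0 := by exact_mod_cast Fintype.card_ne_zero
  exact (mul_eq_zero.1 h3).resolve_left h5

end dual

end Pool.Agent.V7H53.SX
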