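import Pool.Agent.V7H53.SX.Main
import Pool.Agent.V7H53.SX.Minor

set_option autoImplicit false
set_option linter.unusedSectionVars false

/-!
# Abelian base fields: principal minors of the convolution matrix of the ratios of logarithms
-/

namespace Pool.Agent.V7H53.SX

open NumberField TensorProduct Pool.Agent.W289.SL Pool.Agent.W332.SL6
open Pool.Agent.W254.PA (exists_theta LgP Hyp LtE)
open Matrix

variable {p : ℕ} [Fact p.Prime]

section one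

variable {k M : Type} [Field k] [NumberField k] [Field M] [NumberField M] [Algebra k M]
  [FiniteDimensional k M]

lemma proj_mem (χ : (M ≃ₐ[k] M) →* ℂ_[p]ˣ) (x : UM p M) : InChi χ (proj χ x) := by
  induction x using TensorProduct.induction_on with
  | zero => rw [map_zero]; exact zero_inChi χ
  | tmul c u =>
    have h2 : (c ⊗ₜ[ℤ] u : UM p M) = c • ((1 : ℂ_[p]) ⊗ₜ[ℤ] u) := by
      rw [TensorProduct.smul_tmul', smul_eq_mul, mul_one]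
    rw [h2, map_smul, proj_one_tmul]
    exact (xu_inChi χ u).smul c
  | add y z hy hz => rw [map_add]; exact hy.add hz

/-- a nontrivial character of `Gal(M/k)` occurs in the units -/
lemma exists_ne_one [IsTotallyComplex k] (θ : ℂ_[p] ≃+* ℂ) {χ : (M ≃ₐ[k] M) →* ℂ_[p]ˣ}
    (hχ : χ ≠ 1) : ∃ w : UM p M, w ∈ AU p M ∧ InChi χ w ∧ w ≠ 0 := by
  classical
  by_contra hcon
  push Not at hcon
  have h0 : ∀ u : Additive (𝓞 M)ˣ, xu χ u = 0 := fun u =>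
    hcon _ (xu_mem_AU χ u) (xu_inChi χ u)
  apply hχ
  haveI : IsTotallyComplex M := isTotallyComplex_of_algebra k M
  obtain ⟨s⟩ : Nonempty (M →+* ℂ) := inferInstance
  let f : InfinitePlace M → ℂ := fun w =>
    ∑ g : M ≃ₐ[k] M, if InfinitePlace.mk (s.comp (g : M →+* M)) = w then
      θ ((χ g⁻¹ : ℂ_[p]ˣ) : ℂ_[p]) else 0
  have hf : ∀ u : (𝓞 M)ˣ, ∑ w, f w * (Real.log (w (u : 𝓞 M)) : ℂ) = 0 := by
    intro u
    have h1 := lam_xu θ χ u s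
    rw [h0, map_zero, map_zero] at h1
    rw [h1]
    simp only [f, Finset.sum_mul]
    rw [Finset.sum_comm]
    refine Finset.sum_congr rfl fun g _ => ?_
    rw [Finset.sum_eq_single (InfinitePlace.mk (s.comp (g : M →+* M)))]
    · rw [if_pos rfl]
    · intro w _ hw
      rw [if_neg (Ne.symm hw), zero_mul]
    · intro hw
      exact absurd (Finset.mem_univ _) hw
  have hconst := const_of_rel f hf
  have hv1 : ∀ g : M ≃ₐ[k] M, f (InfinitePlace.mk (s.comp (g : M →+* M))) =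
      θ ((χ g⁻¹ : ℂ_[p]ˣ) : ℂ_[p]) := by
    intro g
    simp only [f]
    rw [Finset.sum_eq_single g (fun g' _ hg' => if_neg (fun hh => hg' (mk_inj s g' g hh)))
      (fun hh => absurd (Finset.mem_univ _) hh), if_pos rfl]
  ext1 g
  have h1 : θ ((χ (g⁻¹)⁻¹ : ℂ_[p]ˣ) : ℂ_[p]) =
      θ ((χ (1 : M ≃ₐ[k] M)⁻¹ : ℂ_[p]ˣ) : ℂ_[p]) := by
    rw [← hv1, ← hv1]
    exact hconst _ _
  rw [inv_inv, inv_one, map_one] at h1
  exact Units.ext (θ.injective h1)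

end one

section abel

variable {k K M : Type} [Field k] [NumberField k] [Field K] [NumberField K] [Field M]
  [NumberField M] [Algebra k K] [Algebra k M] [Algebra K M] [IsScalarTower k K M] [IsGalois k K]
  [FiniteDimensional k M] [IsGalois k M] [FiniteDimensional k K]

/-- the twist by a character of `Gal(K/k)` -/
noncomputable def tw (ψM : (M ≃ₐ[k] M) →* ℂ_[p]ˣ) (φ : (K ≃ₐ[k] K) →* ℂ_[p]ˣ) :
    (M ≃ₐ[k] M) →* ℂ_[p]ˣ :=
  ψM * φ.comp (AlgEquiv.restrictNormalHom K)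

lemma tw_apply (ψM : (M ≃ₐ[k] M) →* ℂ_[p]ˣ) (φ : (K ≃ₐ[k] K) →* ℂ_[p]ˣ) (g : M ≃ₐ[k] M) :
    tw ψM φ g = ψM g * φ (g.restrictNormal K) := rfl

lemma tw_inj (ψM : (M ≃ₐ[k] M) →* ℂ_[p]ˣ) {φ φ' : (K ≃ₐ[k] K) →* ℂ_[p]ˣ}
    (h : tw ψM φ = tw ψM φ') : φ = φ' := by
  ext1 b
  obtain ⟨g, hg⟩ := AlgEquiv.restrictNormalHom_surjective (F := k) (K₁ := K) M b
  have h1 := DFunLike.congr_fun h g
  rw [tw_apply, tw_apply] at h1
  have h2 := mul_left_cancel h1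
  have h3 : g.restrictNormal K = b := hg
  rwa [h3] at h2

/-- the decomposition of the `χ`-part -/
lemma decomp_sum [Fintype ((K ≃ₐ[k] K) →* ℂ_[p]ˣ)] (hcomm : ∀ a b : K ≃ₐ[k] K, a * b = b * a)
    (ψM : (M ≃ₐ[k] M) →* ℂ_[p]ˣ) (X : UM p M)
    (hX : ∀ g : M ≃ₐ[k] M, g.restrictNormal K = 1 →
      push (g : M →+* M) X = ((ψM g : ℂ_[p]ˣ) : ℂ_[p]) • X) :
    ∃ N : ℂ_[p], N ≠ 0 ∧ ∑ φ : (K ≃ₐ[k] K) →* ℂ_[p]ˣ, proj (tw ψM φ) X = N • X := by
  classical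
  refine ⟨(Fintype.card ((K ≃ₐ[k] K) →* ℂ_[p]ˣ) : ℂ_[p]) *
    ((Finset.univ.filter fun g : M ≃ₐ[k] M => g.restrictNormal K = 1).card : ℂ_[p]), ?_, ?_⟩
  · refine mul_ne_zero ?_ ?_
    · exact_mod_cast Fintype.card_ne_zero
    · have h1 : (Finset.univ.filter fun g : M ≃ₐ[k] M => g.restrictNormal K = 1).card ≠ 0 := by
        rw [Finset.card_ne_zero]
        refine ⟨1, Finset.mem_filter.2 ⟨Finset.mem_univ _, ?_⟩⟩
        exact map_one (AlgEquiv.restrictNormalHom (F := k) (K₁ := M) K)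
      exact_mod_cast h1
  · have h1 : ∀ φ : (K ≃ₐ[k] K) →* ℂ_[p]ˣ, proj (tw ψM φ) X =
        ∑ g : M ≃ₐ[k] M, ((tw ψM φ g⁻¹ : ℂ_[p]ˣ) : ℂ_[p]) • push (g : M →+* M) X :=
      fun φ => proj_apply _ X
    rw [Finset.sum_congr rfl (fun φ _ => h1 φ), Finset.sum_comm]
    have h2 : ∀ g : M ≃ₐ[k] M, ∑ φ : (K ≃ₐ[k] K) →* ℂ_[p]ˣ,
        ((tw ψM φ g⁻¹ : ℂ_[p]ˣ) : ℂ_[p]) • push (g : M →+* M) X =
        if g.restrictNormal K = 1 then
          (Fintype.card ((K ≃ₐ[k] K) →* ℂ_[p]ˣ) : ℂ_[p]) • X else 0 := by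
      intro g
      have hinv : (g⁻¹).restrictNormal K = (g.restrictNormal K)⁻¹ :=
        map_inv (AlgEquiv.restrictNormalHom (F := k) (K₁ := M) K) g
      rw [← Finset.sum_smul]
      have h3 : ∑ φ : (K ≃ₐ[k] K) →* ℂ_[p]ˣ, ((tw ψM φ g⁻¹ : ℂ_[p]ˣ) : ℂ_[p]) =
          ((ψM g⁻¹ : ℂ_[p]ˣ) : ℂ_[p]) *
            ∑ φ : (K ≃ₐ[k] K) →* ℂ_[p]ˣ, ((φ (g.restrictNormal K)⁻¹ : ℂ_[p]ˣ) : ℂ_[p]) := by
        rw [Finset.mul_sum]
        refine Finset.sum_congr rfl fun φ _ => ?_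
        rw [tw_apply, Units.val_mul, hinv]
      rw [h3]
      split_ifs with hg
      · rw [hX g hg, smul_smul]
        congr 1
        have h4 : ∀ φ : (K ≃ₐ[k] K) →* ℂ_[p]ˣ,
            ((φ (g.restrictNormal K)⁻¹ : ℂ_[p]ˣ) : ℂ_[p]) = 1 := by
          intro φ
          rw [hg, inv_one, map_one, Units.val_one]
        rw [Finset.sum_congr rfl (fun φ _ => h4 φ), Finset.sum_const, Finset.card_univ,
          nsmul_eq_mul, mul_one]
        have h5 : ((ψM g⁻¹ : ℂ_[p]ˣ) : ℂ_[p]) * ((ψM g : ℂ_[p]ˣ) : ℂ_[p]) = 1 := by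
          rw [← Units.val_mul, ← map_mul, inv_mul_cancel, map_one, Units.val_one]
        linear_combination (Fintype.card ((K ≃ₐ[k] K) →* ℂ_[p]ˣ) : ℂ_[p]) * h5
      · rw [sum_dual (F := ℂ_[p]) hcomm (inv_ne_one.2 hg), mul_zero, zero_smul]
    rw [Finset.sum_congr rfl (fun g _ => h2 g), ← Finset.sum_filter, Finset.sum_const,
      ← Nat.cast_smul_eq_nsmul ℂ_[p], smul_smul, mul_comm]

/-- a failure makes a principal minor vanish -/
theorem minor_of_fail [Fintype ((K ≃ₐ[k] K) →* ℂ_[p]ˣ)] [DecidableEq (K ≃ₐ[k] K)]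
    (θ : ℂ_[p] ≃+* ℂ) (hpl : ∀ w w' : InfinitePlace k, w = w')
    (hcomm : ∀ a b : K ≃ₐ[k] K, a * b = b * a)
    {L : ℂ_[p] → ℂ_[p]} (hL : IsIwasawaLog p L) (inc : M →+* ℂ_[p]) (c : M →+* M)
    (ψM : (M ≃ₐ[k] M) →* ℂ_[p]ˣ) (u : ((K ≃ₐ[k] K) →* ℂ_[p]ˣ) → UM p M)
    (huA : ∀ φ, u φ ∈ AU p M) (huχ : ∀ φ, InChi (tw ψM φ) (u φ)) (hu0 : ∀ φ, u φ ≠ 0)
    (s : Finset (K ≃ₐ[k] K)) (X : UM p M) (hX0 : X ≠ 0)
    (hX : ∀ g : M ≃ₐ[k] M, g.restrictNormal K = 1 →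
      push (g : M →+* M) X = ((ψM g : ℂ_[p]ˣ) : ℂ_[p]) • X)
    (h1 : ∀ g : M ≃ₐ[k] M, g.restrictNormal K ∉ s →
      logLin hL (inc.comp (g : M →+* M)) X = 0)
    (h2 : ∀ g : M ≃ₐ[k] M, g.restrictNormal K ∈ s →
      logLin hL ((inc.comp c).comp (g : M →+* M)) X = 0) :
    ((circ fun φ => logLin hL (inc.comp c) (u φ) / logLin hL inc (u φ)).submatrix
      (Subtype.val : s → K ≃ₐ[k] K) (Subtype.val : s → K ≃ₐ[k] K)).det = 0 := by
  obtain ⟨N, hN0, hN⟩ := decomp_sum hcomm ψM X hX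
  choose a ha using fun φ : (K ≃ₐ[k] K) →* ℂ_[p]ˣ =>
    one_dim θ hpl (proj_mem (tw ψM φ) X) (huχ φ) (hu0 φ)
  rw [Finset.sum_congr rfl (fun φ _ => ha φ)] at hN
  have hℓ : ∀ φ, logLin hL inc (u φ) ≠ 0 := fun φ h =>
    hu0 φ (eq_zero_of_log hL inc (huA φ) h)
  -- evaluation of the logarithms
  have hev : ∀ (σ : M →+* ℂ_[p]) (g : M ≃ₐ[k] M), logLin hL (σ.comp (g : M →+* M)) X = 0 →
      ∑ φ : (K ≃ₐ[k] K) →* ℂ_[p]ˣ, (a φ * logLin hL σ (u φ)) *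
        ((φ (g.restrictNormal K) : ℂ_[p]ˣ) : ℂ_[p]) = 0 := by
    intro σ g h0
    have h3 := congrArg (logLin hL (σ.comp (g : M →+* M))) hN
    rw [map_smul, h0, smul_zero, map_sum] at h3
    have h4 : ((ψM g : ℂ_[p]ˣ) : ℂ_[p]) ≠ 0 := (ψM g).ne_zero
    apply mul_left_cancel₀ h4
    rw [mul_zero, ← h3, Finset.mul_sum]
    refine Finset.sum_congr rfl fun φ _ => ?_
    rw [map_smul, smul_eq_mul, logLin_inChi hL (huχ φ), tw_apply, Units.val_mul]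
    ring
  refine minor_zero _ s (fun b => ∑ φ : (K ≃ₐ[k] K) →* ℂ_[p]ˣ, (a φ * logLin hL inc (u φ)) *
    ((φ b : ℂ_[p]ˣ) : ℂ_[p])) ?_ ?_ ?_
  · intro hY
    have h3 := fourier_inj (F := ℂ_[p]) (fun φ : (K ≃ₐ[k] K) →* ℂ_[p]ˣ => a φ * logLin hL inc (u φ))
      (fun b => congrFun hY b)
    have h4 : ∀ φ, a φ = 0 := fun φ => (mul_eq_zero.1 (h3 φ)).resolve_right (hℓ φ)
    rw [Finset.sum_eq_zero (fun φ _ => by rw [h4 φ, zero_smul])] at hN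
    exact (smul_eq_zero.1 hN.symm).elim hN0 hX0
  · intro b hb
    obtain ⟨g, hg⟩ := AlgEquiv.restrictNormalHom_surjective (F := k) (K₁ := K) M b
    have hg' : g.restrictNormal K = b := hg
    have h3 := hev inc g (h1 g (by rw [hg']; exact hb))
    rw [hg'] at h3
    exact h3
  · intro b hb
    obtain ⟨g, hg⟩ := AlgEquiv.restrictNormalHom_surjective (F := k) (K₁ := K) M b
    have hg' : g.restrictNormal K = b := hg
    have h3 := hev (inc.comp c) g (h2 g (by rw [hg']; exact hb))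
    rw [hg'] at h3
    rw [← h3]
    simp only [Matrix.mulVec, dotProduct]
    simp only [Finset.mul_sum]
    rw [Finset.sum_comm]
    refine Finset.sum_congr rfl fun φ _ => ?_
    have h4 := circ_eig (F := ℂ_[p])
      (fun φ : (K ≃ₐ[k] K) →* ℂ_[p]ˣ => logLin hL (inc.comp c) (u φ) / logLin hL inc (u φ)) φ b
    have h5 : ∀ b' : K ≃ₐ[k] K,
        circ (fun φ => logLin hL (inc.comp c) (u φ) / logLin hL inc (u φ)) b b' *
          (a φ * logLin hL inc (u φ) * ((φ b' : ℂ_[p]ˣ) : ℂ_[p])) =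
        (a φ * logLin hL inc (u φ)) *
          (circ (fun φ => logLin hL (inc.comp c) (u φ) / logLin hL inc (u φ)) b b' *
            ((φ b' : ℂ_[p]ˣ) : ℂ_[p])) := fun b' => by ring
    rw [Finset.sum_congr rfl (fun b' _ => h5 b'), ← Finset.mul_sum, h4]
    have := hℓ φ
    field_simp

/-- **Some principal minor of size not divisible by `q` is not zero.** -/
theorem exists_minor [Fintype ((K ≃ₐ[k] K) →* ℂ_[p]ˣ)] [DecidableEq (K ≃ₐ[k] K)]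
    (θ : ℂ_[p] ≃+* ℂ) (hcomm : ∀ a b : K ≃ₐ[k] K, a * b = b * a)
    (q : ℕ) (hq3 : 3 ≤ q) (hqd : q ∣ Fintype.card (K ≃ₐ[k] K))
    {L : ℂ_[p] → ℂ_[p]} (hL : IsIwasawaLog p L) (inc : M →+* ℂ_[p]) (c : M →+* M)
    (ψM : (M ≃ₐ[k] M) →* ℂ_[p]ˣ)
    (hres : ∀ g g' : M ≃ₐ[k] M, c.comp (g' : M →+* M) = (g : M →+* M).comp c →
      g'.restrictNormal K = g.restrictNormal K)
    (hinv : ¬ ∀ g g' : M ≃ₐ[k] M, c.comp (g' : M →+* M) = (g : M →+* M).comp c → ψM g' = ψM g)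
    (u : ((K ≃ₐ[k] K) →* ℂ_[p]ˣ) → UM p M)
    (huA : ∀ φ, u φ ∈ AU p M) (huχ : ∀ φ, InChi (tw ψM φ) (u φ)) (hu0 : ∀ φ, u φ ≠ 0) :
    ∃ s : Finset (K ≃ₐ[k] K), ¬ q ∣ s.card ∧
      ((circ fun φ => logLin hL (inc.comp c) (u φ) / logLin hL inc (u φ)).submatrix
        (Subtype.val : s → K ≃ₐ[k] K) (Subtype.val : s → K ≃ₐ[k] K)).det ≠ 0 := by
  by_contra hcon
  push Not at hcon
  set r : ((K ≃ₐ[k] K) →* ℂ_[p]ˣ) → ℂ_[p] :=
    fun φ => logLin hL (inc.comp c) (u φ) / logLin hL inc (u φ) with hr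
  have hℓ : ∀ φ, logLin hL inc (u φ) ≠ 0 := fun φ h =>
    hu0 φ (eq_zero_of_log hL inc (huA φ) h)
  have hℓ' : ∀ φ, logLin hL (inc.comp c) (u φ) ≠ 0 := fun φ h =>
    hu0 φ (eq_zero_of_log hL (inc.comp c) (huA φ) h)
  have hr0 : ∀ φ, r φ ≠ 0 := fun φ => div_ne_zero (hℓ' φ) (hℓ φ)
  have hrℓ : ∀ φ, logLin hL (inc.comp c) (u φ) = r φ * logLin hL inc (u φ) := fun φ => by
    rw [hr]
    exact (div_mul_cancel₀ _ (hℓ φ)).symm
  have hnot : ∀ φ, ¬ IsAlgebraic ℚ (r φ) := by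
    intro φ hφ
    apply hinv
    intro g g' hg
    have h1 := inv_of_alg θ hL inc c (huA φ) (huχ φ) (hu0 φ) (r φ) hφ (hrℓ φ) g g' hg
    rw [tw_apply, tw_apply, hres g g' hg] at h1
    exact mul_right_cancel h1
  -- three eigenvalues with algebraic ratios
  have : NeZero ((q : ℕ) : ℂ_[p]) := ⟨by
    have : q ≠ 0 := by omega
    exact_mod_cast this⟩
  have : NeZero q := ⟨by omega⟩
  obtain ⟨ζ, hζ⟩ := HasEnoughRootsOfUnity.exists_primitiveRoot ℂ_[p] q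
  have hroot : ∀ ρ : ℂ_[p], (circ r).charpoly.eval ρ = 0 → ∃ φ, r φ = ρ := fun ρ hρ =>
    eig_of_root hcomm r ρ hρ
  have hroot0 : ∀ φ, (circ r).charpoly.eval (r φ) = 0 := by
    intro φ
    rw [Matrix.eval_charpoly, ← Matrix.exists_mulVec_eq_zero_iff]
    refine ⟨fun b => ((φ b : ℂ_[p]ˣ) : ℂ_[p]), ?_, ?_⟩
    · intro h
      have h1 := congrFun h 1
      simp at h1
    · rw [Matrix.sub_mulVec, sub_eq_zero]
      funext b
      have h1 : ((circ r) *ᵥ fun b => ((φ b : ℂ_[p]ˣ) : ℂ_[p])) b =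
          r φ * ((φ b : ℂ_[p]ˣ) : ℂ_[p]) := circ_eig r φ b
      rw [h1]
      simp [Matrix.scalar_apply, Matrix.mulVec_diagonal]
  have hnext : ∀ φ : (K ≃ₐ[k] K) →* ℂ_[p]ˣ, ∃ φ' : (K ≃ₐ[k] K) →* ℂ_[p]ˣ, r φ' = ζ * r φ := by
    intro φ
    apply hroot
    rw [eval_zeta (circ r) q hqd hcon ζ hζ.pow_eq_one, hroot0]
  obtain ⟨φ₀⟩ : Nonempty ((K ≃ₐ[k] K) →* ℂ_[p]ˣ) := ⟨1⟩
  obtain ⟨φ₁, hφ₁⟩ := hnext φ₀
  obtain ⟨φ₂, hφ₂⟩ := hnext φ₁
  have hζ1 : ζ ≠ 1 := hζ.ne_one (by omega)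
  have hζ2 : ζ ^ 2 ≠ 1 := hζ.pow_ne_one_of_pos_of_lt (by norm_num) (by omega)
  have hζ0 : ζ ≠ 0 := hζ.ne_zero (by omega)
  have hζalg : IsAlgebraic ℚ ζ := by
    have h3 : IsAlgebraic ℚ (ζ ^ q) := by
      rw [hζ.pow_eq_one]; exact isAlgebraic_one
    exact h3.of_pow (by omega)
  have h01 : φ₀ ≠ φ₁ := by
    rintro rfl
    apply hζ1
    apply mul_right_cancel₀ (hr0 φ₀)
    rw [← hφ₁, one_mul]
  have h12 : φ₁ ≠ φ₂ := by
    rintro rfl
    apply hζ1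
    apply mul_right_cancel₀ (hr0 φ₁)
    rw [← hφ₂, one_mul]
  have h02 : φ₀ ≠ φ₂ := by
    rintro rfl
    apply hζ2
    apply mul_right_cancel₀ (hr0 φ₀)
    rw [one_mul]
    nth_rewrite 2 [hφ₂]
    rw [hφ₁]
    ring
  have hq0 : r φ₀ / r φ₀ = 1 := div_self (hr0 φ₀)
  have hq1 : r φ₀ / r φ₁ = ζ⁻¹ := by
    rw [hφ₁]
    have := hr0 φ₀
    field_simp
  have hq2 : r φ₀ / r φ₂ = (ζ ^ 2)⁻¹ := by
    rw [hφ₂, hφ₁]
    have := hr0 φ₀
    field_simp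
  have hli : ∀ g : Fin 3 → ℂ_[p], (∀ j, IsAlgebraic ℚ (g j)) →
      ∑ j, g j • (![u φ₀, u φ₁, u φ₂] : Fin 3 → UM p M) j = 0 → ∀ j, g j = 0 := by
    intro g _ hg j
    have h1 := indep_eig (k := k) (M := M) (Finset.univ : Finset (Fin 3))
      ![tw ψM φ₀, tw ψM φ₁, tw ψM φ₂]
      (by
        intro i _ j _ hij
        fin_cases i <;> fin_cases j
        · rfl
        · exact absurd (tw_inj ψM hij) h01
        · exact absurd (tw_inj ψM hij) h02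
        · exact absurd (tw_inj ψM hij).symm h01
        · rfl
        · exact absurd (tw_inj ψM hij) h12
        · exact absurd (tw_inj ψM hij).symm h02
        · exact absurd (tw_inj ψM hij).symm h12
        · rfl)
      (fun j => g j • (![u φ₀, u φ₁, u φ₂] : Fin 3 → UM p M) j)
      (by
        intro i _
        fin_cases i
        · exact (huχ φ₀).smul _
        · exact (huχ φ₁).smul _
        · exact (huχ φ₂).smul _) hg j (Finset.mem_univ j)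
    rcases smul_eq_zero.1 h1 with h2 | h2
    · exact h2
    · exfalso
      fin_cases j
      · exact hu0 φ₀ h2
      · exact hu0 φ₁ h2
      · exact hu0 φ₂ h2
  refine six hL inc c ![u φ₀, u φ₁, u φ₂] ?_ hli ![r φ₀ / r φ₀, r φ₀ / r φ₁, r φ₀ / r φ₂] ?_
    (r φ₀) (hnot φ₀) ?_
  · intro j
    fin_cases j
    · exact huA φ₀
    · exact huA φ₁
    · exact huA φ₂
  · intro j
    fin_cases j
    · change IsAlgebraic ℚ (r φ₀ / r φ₀)
      rw [hq0]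
      exact isAlgebraic_one
    · change IsAlgebraic ℚ (r φ₀ / r φ₁)
      rw [hq1]
      exact hζalg.inv
    · change IsAlgebraic ℚ (r φ₀ / r φ₂)
      rw [hq2]
      exact (hζalg.pow 2).inv
  · have h1 : ∀ φ, r φ₀ / r φ * logLin hL (inc.comp c) (u φ) = r φ₀ * logLin hL inc (u φ) := by
      intro φ
      rw [hrℓ φ]
      have := hr0 φ
      field_simp
    intro j
    fin_cases j
    · exact h1 φ₀
    · exact h1 φ₁
    · exact h1 φ₂

end abel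

end Pool.Agent.V7H53.SX
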