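import Pool.Agent.V7H53.SX.Eig

set_option autoImplicit false
set_option linter.unusedSectionVars false

/-!
# Complex conjugation and characters over an imaginary quadratic field
-/

namespace Pool.Agent.V7H53.SX

open NumberField TensorProduct Pool.Agent.W289.SL Pool.Agent.W332.SL6

variable {p : ℕ} [Fact p.Prime]

/-- an imaginary quadratic field has one infinite place -/
lemma one_place (k : Type) [Field k] [NumberField k] [IsTotallyComplex k]
    (hk : Module.finrank ℚ k = 2) (w w' : InfinitePlace k) : w = w' := by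
  have h1 := IsTotallyComplex.finrank k
  have h1' := InfinitePlace.card_eq_nrRealPlaces_add_nrComplexPlaces k
  rw [IsTotallyComplex.nrRealPlaces_eq_zero k] at h1'
  have h2 : Fintype.card (InfinitePlace k) = 1 := by omega
  exact Fintype.card_le_one_iff.1 h2.le w w'

/-- complex conjugation on a Galois number field -/
lemma exists_conj {M : Type} [Field M] [NumberField M] [IsGalois ℚ M] (s0 : M →+* ℂ) :
    ∃ c : M ≃ₐ[ℚ] M, ∀ y, s0 (c y) = star (s0 y) := by
  obtain ⟨τ, hτ⟩ := exists_aut (K := ℚ) ((starRingEnd ℂ).comp s0) s0 (Subsingleton.elim _ _)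
  exact ⟨τ, fun y => (RingHom.congr_fun hτ y).symm⟩

section

variable {k M : Type} [Field k] [NumberField k] [Field M] [NumberField M] [Algebra k M]
  [FiniteDimensional k M]

/-- the embeddings into `ℂ_p` -/
lemma emb_cases [IsGalois k M] (θ : ℂ_[p] ≃+* ℂ) (hpl : ∀ w w' : InfinitePlace k, w = w')
    (inc : M →+* ℂ_[p]) (c : M ≃ₐ[ℚ] M) (hc : ∀ y, θ (inc (c y)) = star (θ (inc y)))
    (σ : M →+* ℂ_[p]) :
    (∃ τ : M ≃ₐ[k] M, σ = inc.comp (τ : M →+* M)) ∨
      ∃ τ : M ≃ₐ[k] M, σ = (inc.comp (c : M →+* M)).comp (τ : M →+* M) := by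
  have h1 := hpl (InfinitePlace.mk (((θ : ℂ_[p] →+* ℂ).comp σ).comp (algebraMap k M)))
    (InfinitePlace.mk (((θ : ℂ_[p] →+* ℂ).comp inc).comp (algebraMap k M)))
  rcases InfinitePlace.mk_eq_iff.1 h1 with h2 | h2
  · left
    exact exists_aut (K := k) σ inc (by
      ext x
      exact θ.injective (RingHom.congr_fun h2 x))
  · right
    refine exists_aut (K := k) σ (inc.comp (c : M →+* M)) ?_
    ext x
    apply θ.injective
    have h3 := RingHom.congr_fun h2 x
    rw [ComplexEmbedding.conjugate_coe_eq] at h3
    have h4 : star (θ (σ (algebraMap k M x))) = θ (inc (algebraMap k M x)) := h3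
    change θ (σ (algebraMap k M x)) = θ (inc (c (algebraMap k M x)))
    rw [hc, ← h4, star_star]

/-- conjugation of the elements of `Gal(M/k)` -/
lemma exists_conjugate [Normal ℚ k] (c : M ≃ₐ[ℚ] M) (g : M ≃ₐ[k] M) : ∃ g' : M ≃ₐ[k] M,
    (c : M →+* M).comp (g' : M →+* M) = (g : M →+* M).comp (c : M →+* M) := by
  let f : M ≃+* M := (c.toRingEquiv.trans g.toRingEquiv).trans c.symm.toRingEquiv
  have hf : ∀ y, f y = c.symm (g (c y)) := fun y => rfl
  refine ⟨AlgEquiv.ofRingEquiv (f := f) (fun x => ?_), ?_⟩
  · have h1 : c (algebraMap k M x) = algebraMap k M (c.restrictNormal k x) :=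
      (AlgEquiv.restrictNormal_commutes c k x).symm
    rw [hf, h1, AlgEquiv.commutes, ← h1, AlgEquiv.symm_apply_apply]
  · ext y
    change c (c.symm (g (c y))) = g (c y)
    rw [AlgEquiv.apply_symm_apply]

end

/-- invariance of a faithful character under complex conjugation forces the field to be CM -/
theorem isCM_of_inv {k E M : Type} [Field k] [NumberField k] [IsTotallyComplex k]
    (hk : Module.finrank ℚ k = 2) [Field E] [NumberField E] [Algebra k E] [IsGalois k E]
    [Field M] [NumberField M] [IsGalois ℚ M] [Algebra k M] [Algebra E M] [IsScalarTower k E M]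
    (ψ : (E ≃ₐ[k] E) →* ℂ_[p]ˣ) (hψ : Function.Injective ψ) (s0 : M →+* ℂ) (c : M ≃ₐ[ℚ] M)
    (hc : ∀ y, s0 (c y) = star (s0 y))
    (hinv : ∀ g g' : M ≃ₐ[k] M,
      (c : M →+* M).comp (g' : M →+* M) = (g : M →+* M).comp (c : M →+* M) →
      ψ (g'.restrictNormal E) = ψ (g.restrictNormal E)) : IsCMField E := by
  classical
  have : Algebra.IsQuadraticExtension ℚ k := ⟨hk⟩
  have : IsGalois ℚ k := inferInstance
  have : IsGalois k M := IsGalois.tower_top_of_isGalois ℚ k M
  have : FiniteDimensional k M := Module.Finite.of_restrictScalars_finite ℚ k M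
  have : FiniteDimensional k E := Module.Finite.of_restrictScalars_finite ℚ k E
  have : IsTotallyComplex E := isTotallyComplex_of_algebra k E
  have hrange : ∀ y : E, ∃ z : E, algebraMap E M z = c (algebraMap E M y) := by
    intro y
    let E' : IntermediateField k M := (IsScalarTower.toAlgHom k E M).fieldRange
    have hE : ∀ z : E, algebraMap E M z ∈ E' := fun z => ⟨z, rfl⟩
    have hy : c (algebraMap E M y) ∈ E' := by
      rw [← IsGalois.fixedField_fixingSubgroup E', IntermediateField.mem_fixedField_iff]
      intro γ hγ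
      rw [IntermediateField.mem_fixingSubgroup_iff] at hγ
      obtain ⟨γ', h'⟩ := exists_conjugate c γ
      have h1 := hinv γ γ' h'
      have hres : γ.restrictNormal E = 1 := by
        ext e
        apply (algebraMap E M).injective
        rw [AlgEquiv.restrictNormal_commutes]
        exact hγ _ (hE e)
      rw [hres, map_one] at h1
      have h2 : γ'.restrictNormal E = 1 := hψ (by rw [h1, map_one])
      have h3 : γ' (algebraMap E M y) = algebraMap E M y := by
        rw [← AlgEquiv.restrictNormal_commutes, h2]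
        rfl
      have h4 := RingHom.congr_fun h' (algebraMap E M y)
      change c (γ' (algebraMap E M y)) = γ (c (algebraMap E M y)) at h4
      rw [← h4, h3]
    obtain ⟨z, hz⟩ := hy
    exact ⟨z, hz⟩
  let f : E →+* M := algebraMap E M
  let h : E →+* M := (c : M →+* M).comp (algebraMap E M)
  let j : E →+* E := (f.rangeRestrictFieldEquiv.symm : f.fieldRange →+* E).comp
    (h.codRestrict f.fieldRange (fun y => by
      obtain ⟨z, hz⟩ := hrange y
      exact ⟨z, hz⟩))
  have hj : ∀ y : E, algebraMap E M (j y) = c (algebraMap E M y) := by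
    intro y
    have h1 := f.rangeRestrictFieldEquiv.apply_symm_apply
      (h.codRestrict f.fieldRange (fun y => by
      obtain ⟨z, hz⟩ := hrange y
      exact ⟨z, hz⟩) y)
    exact congrArg (fun z : f.fieldRange => (z : M)) h1
  -- `j` commutes with the Galois group
  have hcomm : ∀ (g0 : E ≃ₐ[k] E) (y : E), j (g0 y) = g0 (j y) := by
    intro g0 y
    obtain ⟨g, hg⟩ := AlgEquiv.restrictNormalHom_surjective (F := k) (K₁ := E) M g0
    have hg1 : ∀ y : E, g (algebraMap E M y) = algebraMap E M (g0 y) := by
      intro y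
      rw [← hg]
      exact (AlgEquiv.restrictNormal_commutes g E y).symm
    obtain ⟨g', h'⟩ := exists_conjugate c g
    have h1 := hinv g g' h'
    have h2 : g'.restrictNormal E = g.restrictNormal E := hψ h1
    have hg2 : ∀ y : E, g' (algebraMap E M y) = algebraMap E M (g0 y) := by
      intro y
      rw [← AlgEquiv.restrictNormal_commutes, h2, AlgEquiv.restrictNormal_commutes, hg1]
    apply (algebraMap E M).injective
    have h4 := RingHom.congr_fun h' (algebraMap E M y)
    change c (g' (algebraMap E M y)) = g (c (algebraMap E M y)) at h4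
    rw [hj, ← hg1, ← hg1, hj, ← h4, hg2, hg1]
  -- the first case
  have hA : ∀ s : E →+* ℂ, s.comp (algebraMap k E) = (s0.comp f).comp (algebraMap k E) →
      ∀ y, s (j y) = star (s y) := by
    intro s hs y
    obtain ⟨g0, hg0⟩ := exists_aut (K := k) s (s0.comp f) hs
    have h1 : ∀ z, s z = s0 (algebraMap E M (g0 z)) := fun z => RingHom.congr_fun hg0 z
    rw [h1, h1, ← hcomm, hj, hc]
  refine isCM_of_conj j fun s y => ?_
  have h1 := one_place k hk (InfinitePlace.mk (s.comp (algebraMap k E)))
    (InfinitePlace.mk ((s0.comp f).comp (algebraMap k E)))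
  rcases InfinitePlace.mk_eq_iff.1 h1 with h2 | h2
  · exact hA s h2 y
  · have h3 := hA ((starRingEnd ℂ).comp s) (by
      rw [← h2]
      rfl) y
    have h4 : star (s (j y)) = star (star (s y)) := h3
    exact star_injective h4

end Pool.Agent.V7H53.SX
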