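import Pool.Agent.W332.SL6.Main

set_option autoImplicit false
set_option linter.unusedSectionVars false

/-!
# Eigenvectors in `ℂ_p ⊗ 𝓞_M^×` over a base field with one infinite place
-/

namespace Pool.Agent.V7H53.SX

open NumberField TensorProduct Pool.Agent.W289.SL Pool.Agent.W332.SL6
open Pool.Agent.W254.PA (exists_theta LgP Hyp LtE)

variable {p : ℕ} [Fact p.Prime]

section eig

variable {k M : Type} [Field k] [NumberField k] [Field M] [NumberField M] [Algebra k M]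
  [FiniteDimensional k M]

/-- the projector to the `χ`-part, up to a constant -/
noncomputable def proj (χ : (M ≃ₐ[k] M) →* ℂ_[p]ˣ) : UM p M →ₗ[ℂ_[p]] UM p M :=
  ∑ g : M ≃ₐ[k] M, ((χ g⁻¹ : ℂ_[p]ˣ) : ℂ_[p]) • push (g : M →+* M)

lemma proj_apply (χ : (M ≃ₐ[k] M) →* ℂ_[p]ˣ) (x : UM p M) :
    proj χ x = ∑ g : M ≃ₐ[k] M, ((χ g⁻¹ : ℂ_[p]ˣ) : ℂ_[p]) • push (g : M →+* M) x := by
  simp [proj, LinearMap.sum_apply]

lemma proj_one_tmul (χ : (M ≃ₐ[k] M) →* ℂ_[p]ˣ) (u : Additive (𝓞 M)ˣ) :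
    proj χ ((1 : ℂ_[p]) ⊗ₜ[ℤ] u : UM p M) = xu χ u := by
  rw [proj_apply]
  rfl

lemma proj_inChi (χ : (M ≃ₐ[k] M) →* ℂ_[p]ˣ) {x : UM p M} (hx : InChi χ x) :
    proj χ x = (Fintype.card (M ≃ₐ[k] M) : ℂ_[p]) • x := by
  rw [proj_apply]
  have h1 : ∀ g : M ≃ₐ[k] M, ((χ g⁻¹ : ℂ_[p]ˣ) : ℂ_[p]) • push (g : M →+* M) x = x := by
    intro g
    rw [← actLin_eq, hx g, smul_smul, ← Units.val_mul, ← map_mul, inv_mul_cancel, map_one,
      Units.val_one, one_smul]
  rw [Finset.sum_congr rfl (fun g _ => h1 g), Finset.sum_const, Finset.card_univ,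
    Nat.cast_smul_eq_nsmul]

lemma exists_xu {χ : (M ≃ₐ[k] M) →* ℂ_[p]ˣ} {x : UM p M} (hx : InChi χ x) (h0 : x ≠ 0) :
    ∃ u : Additive (𝓞 M)ˣ, xu χ u ≠ 0 := by
  by_contra hcon
  push Not at hcon
  have h1 : ∀ y : UM p M, proj χ y = 0 := by
    intro y
    induction y using TensorProduct.induction_on with
    | zero => rw [map_zero]
    | tmul c u =>
      have h2 : (c ⊗ₜ[ℤ] u : UM p M) = c • ((1 : ℂ_[p]) ⊗ₜ[ℤ] u) := by
        rw [TensorProduct.smul_tmul', smul_eq_mul, mul_one]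
      rw [h2, map_smul, proj_one_tmul, hcon, smul_zero]
    | add y z hy hz => rw [map_add, hy, hz, add_zero]
  have h2 := h1 x
  rw [proj_inChi χ hx] at h2
  rcases smul_eq_zero.1 h2 with h3 | h3
  · have h4 : Fintype.card (M ≃ₐ[k] M) = 0 := by exact_mod_cast h3
    exact absurd h4 (Fintype.card_ne_zero)
  · exact h0 h3

/-- a nonzero eigenvector with algebraic coordinates -/
lemma exists_gen {χ : (M ≃ₐ[k] M) →* ℂ_[p]ˣ} {x : UM p M} (hx : InChi χ x) (h0 : x ≠ 0) :
    ∃ w : UM p M, w ∈ AU p M ∧ InChi χ w ∧ w ≠ 0 := by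
  obtain ⟨u, hu⟩ := exists_xu hx h0
  exact ⟨xu χ u, xu_mem_AU χ u, xu_inChi χ u, hu⟩

lemma zero_inChi (χ : (M ≃ₐ[k] M) →* ℂ_[p]ˣ) : InChi χ (0 : UM p M) := by
  intro τ
  rw [map_zero, smul_zero]

/-- the eigenspaces are one-dimensional if `k` has only one infinite place -/
lemma one_dim [IsGalois k M] (θ : ℂ_[p] ≃+* ℂ) (hpl : ∀ w w' : InfinitePlace k, w = w')
    {χ : (M ≃ₐ[k] M) →* ℂ_[p]ˣ} {x w : UM p M} (hx : InChi χ x) (hw : InChi χ w) (hw0 : w ≠ 0) :
    ∃ a : ℂ_[p], x = a • w := by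
  obtain ⟨s, hs⟩ : ∃ s : M →+* ℂ, lam θ s w ≠ 0 := by
    by_contra hcon
    push Not at hcon
    exact hw0 (eq_zero_of_lam θ w hcon)
  refine ⟨lam θ s x / lam θ s w, ?_⟩
  rw [← sub_eq_zero]
  apply eq_zero_of_lam θ
  intro t
  refine lam_zero_of_place θ (hx.sub (hw.smul _)) t s (hpl _ _) ?_
  rw [map_sub, map_smul, smul_eq_mul, div_mul_cancel₀ _ hs, sub_self]

/-- eigenvectors for distinct characters are independent -/
lemma indep_eig {ι : Type} (s : Finset ι) (χ : ι → ((M ≃ₐ[k] M) →* ℂ_[p]ˣ))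
    (hinj : ∀ i ∈ s, ∀ j ∈ s, χ i = χ j → i = j) (x : ι → UM p M)
    (hx : ∀ i ∈ s, InChi (χ i) (x i)) (h0 : ∑ i ∈ s, x i = 0) : ∀ i ∈ s, x i = 0 := by
  classical
  induction s using Finset.induction_on generalizing x with
  | empty => intro i hi; exact absurd hi (Finset.notMem_empty i)
  | insert a s ha ih =>
    rw [Finset.sum_insert ha] at h0
    have hs : ∀ i ∈ s, x i = 0 := by
      intro i hi
      obtain ⟨τ, hτ⟩ : ∃ τ : M ≃ₐ[k] M, χ i τ ≠ χ a τ := by
        by_contra hcon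
        push Not at hcon
        have h1 := hinj i (Finset.mem_insert_of_mem hi) a (Finset.mem_insert_self a s)
          (MonoidHom.ext hcon)
        exact ha (h1 ▸ hi)
      have h1 := ih (fun i hi j hj => hinj i (Finset.mem_insert_of_mem hi) j
        (Finset.mem_insert_of_mem hj))
        (fun i => (((χ i τ : ℂ_[p]ˣ) : ℂ_[p]) - ((χ a τ : ℂ_[p]ˣ) : ℂ_[p])) • x i)
        (fun i hi => (hx i (Finset.mem_insert_of_mem hi)).smul _) (by
          have h2 := congrArg (actLin p (τ : M →+* M)) h0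
          rw [map_zero, map_add, map_sum, hx a (Finset.mem_insert_self a s) τ,
            Finset.sum_congr rfl (fun i hi => hx i (Finset.mem_insert_of_mem hi) τ)] at h2
          have h3 := congrArg (fun y => ((χ a τ : ℂ_[p]ˣ) : ℂ_[p]) • y) h0
          simp only [smul_add, smul_zero, Finset.smul_sum] at h3
          have h4 : ∑ i ∈ s, (((χ i τ : ℂ_[p]ˣ) : ℂ_[p]) - ((χ a τ : ℂ_[p]ˣ) : ℂ_[p])) • x i =
              (((χ a τ : ℂ_[p]ˣ) : ℂ_[p]) • x a + ∑ i ∈ s, ((χ i τ : ℂ_[p]ˣ) : ℂ_[p]) • x i) -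
              (((χ a τ : ℂ_[p]ˣ) : ℂ_[p]) • x a + ∑ i ∈ s, ((χ a τ : ℂ_[p]ˣ) : ℂ_[p]) • x i) := by
            rw [add_sub_add_left_eq_sub, ← Finset.sum_sub_distrib]
            refine Finset.sum_congr rfl fun i _ => ?_
            rw [sub_smul]
          rw [h4, h2, h3, sub_zero]) i hi
      rcases smul_eq_zero.1 h1 with h2 | h2
      · exact absurd (Units.ext (sub_eq_zero.1 h2)) hτ
      · exact h2
    intro i hi
    rcases Finset.mem_insert.1 hi with rfl | hi
    · rw [Finset.sum_eq_zero hs, add_zero] at h0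
      exact h0
    · exact hs i hi

end eig

section pushes

variable {H M : Type} [Field H] [NumberField H] [Field M] [NumberField M]

lemma push_ne_zero (θ : ℂ_[p] ≃+* ℂ) (f : H →+* M) {x : UM p H} (hx : x ≠ 0) :
    push f x ≠ 0 := by
  intro h
  apply hx
  apply eq_zero_of_lam θ
  intro s
  obtain ⟨t, rfl⟩ : ∃ t : M →+* ℂ, t.comp f = s := by
    let := f.toAlgebra
    let := s.toAlgebra
    have : Algebra.IsAlgebraic H M := Algebra.IsAlgebraic.tower_top (K := ℚ) H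
    let φ : M →ₐ[H] ℂ := IsAlgClosed.lift
    exact ⟨φ, φ.comp_algebraMap⟩
  rw [← lam_push, h, map_zero]

end pushes

section six

variable {M : Type} [Field M] [NumberField M]

/-- **Strong six exponentials** for units. -/
theorem six {L : ℂ_[p] → ℂ_[p]} (hL : IsIwasawaLog p L) (inc : M →+* ℂ_[p]) (c : M →+* M)
    (w : Fin 3 → UM p M) (hw : ∀ j, w j ∈ AU p M)
    (hli : ∀ g : Fin 3 → ℂ_[p], (∀ j, IsAlgebraic ℚ (g j)) → ∑ j, g j • w j = 0 → ∀ j, g j = 0)
    (α : Fin 3 → ℂ_[p]) (hα : ∀ j, IsAlgebraic ℚ (α j)) (r : ℂ_[p]) (hr : ¬ IsAlgebraic ℚ r)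
    (h : ∀ j, α j * logLin hL (inc.comp c) (w j) = r * logLin hL inc (w j)) : False := by
  have hx : LinearIndependent (algebraicClosure ℚ ℂ_[p]) ![r, -1] := by
    rw [LinearIndependent.pair_iff]
    intro s t hst
    have hst' : (s : ℂ_[p]) * r + (t : ℂ_[p]) * (-1) = 0 := hst
    by_cases hs : (s : ℂ_[p]) = 0
    · rw [hs, zero_mul, zero_add] at hst'
      have ht : (t : ℂ_[p]) = 0 := by linear_combination -hst'
      exact ⟨Subtype.ext hs, Subtype.ext ht⟩
    · exfalso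
      apply hr
      have h1 : r = (t : ℂ_[p]) / s := by
        field_simp
        linear_combination hst'
      rw [h1, div_eq_mul_inv]
      exact (mem_algebraicClosure_iff.1 t.2).mul (mem_algebraicClosure_iff.1 s.2).inv
  have hcol : LinearIndependent (algebraicClosure ℚ ℂ_[p])
      (fun (j : Fin 3) (i : Fin 2) =>
        ![logLin hL inc (w j), α j * logLin hL (inc.comp c) (w j)] i) := by
    rw [Fintype.linearIndependent_iff]
    intro g hg j
    have h3 := congrFun hg 0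
    rw [Finset.sum_apply] at h3
    have h4 : ∑ j, (g j : ℂ_[p]) * logLin hL inc (w j) = 0 := h3
    have h5 : ∑ j, (g j : ℂ_[p]) • w j = 0 := by
      apply eq_zero_of_log hL inc (Submodule.sum_mem _ fun j _ =>
        smul_mem_AU (hw j) (mem_algebraicClosure_iff.1 (g j).2))
      rw [map_sum, ← h4]
      refine Finset.sum_congr rfl fun j _ => ?_
      rw [map_smul, smul_eq_mul]
    exact Subtype.ext (hli _ (fun j => mem_algebraicClosure_iff.1 (g j).2) h5 j)
  have h3 := hypC (p := p) 2 3 ![r, -1]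
    (fun i j => ![logLin hL inc (w j), α j * logLin hL (inc.comp c) (w j)] i) hx
    (fun i j => by
      fin_cases i
      · exact logLin_mem hL inc (hw j)
      · exact Submodule.smul_mem _ (⟨α j, mem_algebraicClosure_iff.2 (hα j)⟩ :
          algebraicClosure ℚ ℂ_[p]) (logLin_mem hL (inc.comp c) (hw j)))
    (fun j => by
      rw [Fin.sum_univ_two]
      change r * logLin hL inc (w j) + (-1) * (α j * logLin hL (inc.comp c) (w j)) = 0
      rw [h j]
      ring) hcol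
  omega

end six

section ratio

variable {k M : Type} [Field k] [NumberField k] [Field M] [NumberField M] [Algebra k M]
  [FiniteDimensional k M]

/-- if the ratio of the two logarithms is algebraic, the character is invariant -/
theorem inv_of_alg (θ : ℂ_[p] ≃+* ℂ) {L : ℂ_[p] → ℂ_[p]} (hL : IsIwasawaLog p L)
    (inc : M →+* ℂ_[p]) (c : M →+* M)
    {χ : (M ≃ₐ[k] M) →* ℂ_[p]ˣ} {w : UM p M} (hw : w ∈ AU p M) (hwχ : InChi χ w) (hw0 : w ≠ 0)
    (r : ℂ_[p]) (hr : IsAlgebraic ℚ r)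
    (h : logLin hL (inc.comp c) w = r * logLin hL inc w)
    (g g' : M ≃ₐ[k] M) (hg : c.comp (g' : M →+* M) = (g : M →+* M).comp c) : χ g' = χ g := by
  have h1 : push c w = r • w := by
    rw [← sub_eq_zero]
    apply eq_zero_of_log hL inc (Submodule.sub_mem _ (push_mem_AU c hw) (smul_mem_AU hw hr))
    rw [map_sub, logLin_push, map_smul, smul_eq_mul, h, sub_self]
  have h2 : push (g : M →+* M) (push c w) = ((χ g' : ℂ_[p]ˣ) : ℂ_[p]) • push c w := by
    rw [push_push, ← hg, ← push_push, ← actLin_eq (g' : M →+* M), hwχ g', map_smul]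
  have h3 : push (g : M →+* M) (push c w) = ((χ g : ℂ_[p]ˣ) : ℂ_[p]) • push c w := by
    rw [h1, map_smul, ← actLin_eq, hwχ g, smul_comm]
  rw [h2] at h3
  have h4 : (((χ g' : ℂ_[p]ˣ) : ℂ_[p]) - ((χ g : ℂ_[p]ˣ) : ℂ_[p])) • push c w = 0 := by
    rw [sub_smul, h3, sub_self]
  rcases smul_eq_zero.1 h4 with h5 | h5
  · exact Units.ext (sub_eq_zero.1 h5)
  · exact absurd h5 (push_ne_zero θ c hw0)

end ratio

end Pool.Agent.V7H53.SX
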