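import Pool.Agent.V7H53.SX.Conj

set_option autoImplicit false
set_option linter.unusedSectionVars false

/-!
# A failure of the statement over `K = F k` gives a relation between two ratios of logarithms
-/

namespace Pool.Agent.V7H53.SX

open NumberField TensorProduct Pool.Agent.W289.SL Pool.Agent.W332.SL6

variable {p : ℕ} [Fact p.Prime]

open Classical in
/-- the sign character of a group of order two -/
noncomputable def sgn (p : ℕ) [Fact p.Prime] {G : Type} [Group G] (hG : Nat.card G = 2) :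
    G →* ℂ_[p]ˣ where
  toFun g := if g = 1 then 1 else -1
  map_one' := if_pos rfl
  map_mul' a b := by
    obtain ⟨y, hy, hu⟩ := (Nat.card_eq_two_iff' (1 : G)).1 hG
    by_cases ha : a = 1
    · simp [ha]
    by_cases hb : b = 1
    · simp [hb]
    have h1 : a = y := hu a ha
    have h3 : a * b = 1 := by
      by_contra h
      have h4 : a * b = y := hu (a * b) h
      rw [← h1] at h4
      exact hb (mul_eq_left.1 h4)
    rw [if_neg ha, if_neg hb, if_pos h3]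
    simp

lemma sgn_of_ne {G : Type} [Group G] (hG : Nat.card G = 2) {g : G} (hg : g ≠ 1) :
    sgn p hG g = -1 := if_neg hg

lemma neg_one_ne : (-1 : ℂ_[p]ˣ) ≠ 1 := by
  intro h
  have h1 := congrArg (fun u : ℂ_[p]ˣ => (u : ℂ_[p])) h
  simp only [Units.val_neg, Units.val_one] at h1
  have h2 : (2 : ℂ_[p]) = 0 := by linear_combination -h1
  exact two_ne_zero h2

lemma sgn_eq_one {G : Type} [Group G] (hG : Nat.card G = 2) {g : G} :
    sgn p hG g = 1 ↔ g = 1 := by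
  constructor
  · intro h
    by_contra hg
    rw [sgn_of_ne hG hg] at h
    exact neg_one_ne h
  · rintro rfl
    exact map_one _

section killed

variable {k M : Type} [Field k] [NumberField k] [Field M] [NumberField M] [Algebra k M]
  [FiniteDimensional k M] [IsGalois k M]

/-- an eigenvector killed by one logarithm is zero -/
lemma killed (θ : ℂ_[p] ≃+* ℂ) (hpl : ∀ w w' : InfinitePlace k, w = w')
    {L : ℂ_[p] → ℂ_[p]} (hL : IsIwasawaLog p L) (σ : M →+* ℂ_[p])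
    {χ : (M ≃ₐ[k] M) →* ℂ_[p]ˣ} {x : UM p M} (hx : InChi χ x) (h : logLin hL σ x = 0) :
    x = 0 := by
  by_contra h0
  obtain ⟨w, hw, hwχ, hw0⟩ := exists_gen hx h0
  obtain ⟨a, rfl⟩ := one_dim θ hpl hx hwχ hw0
  rw [map_smul, smul_eq_mul] at h
  have h1 : logLin hL σ w ≠ 0 := fun h2 => hw0 (eq_zero_of_log hL σ hw h2)
  apply h0
  rw [(mul_eq_zero.1 h).resolve_right h1, zero_smul]

end killed

section quad

variable {k K M : Type} [Field k] [NumberField k] [Field K] [NumberField K] [Field M]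
  [NumberField M] [Algebra k K] [Algebra k M] [Algebra K M] [IsScalarTower k K M] [IsGalois k K]
  [FiniteDimensional k M] [IsGalois k M]

/-- the quadratic character of `Gal(M/k)` with field `K` -/
noncomputable def sgnM (p : ℕ) [Fact p.Prime] (k K M : Type) [Field k] [Field K] [Field M]
    [Algebra k K] [Algebra k M] [Algebra K M] [IsScalarTower k K M] [Normal k K] [Normal k M]
    (hK : Nat.card (K ≃ₐ[k] K) = 2) : (M ≃ₐ[k] M) →* ℂ_[p]ˣ :=
  (sgn p hK).comp (AlgEquiv.restrictNormalHom K)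

lemma sgnM_eq_one (hK : Nat.card (K ≃ₐ[k] K) = 2) (g : M ≃ₐ[k] M) :
    sgnM p k K M hK g = 1 ↔ g.restrictNormal K = 1 := sgn_eq_one hK

/-- **Key step.** -/
theorem fail_data (θ : ℂ_[p] ≃+* ℂ) (hpl : ∀ w w' : InfinitePlace k, w = w')
    {L : ℂ_[p] → ℂ_[p]} (hL : IsIwasawaLog p L) (hK : Nat.card (K ≃ₐ[k] K) = 2)
    (inc : M →+* ℂ_[p]) (c : M ≃ₐ[ℚ] M) (ψM : (M ≃ₐ[k] M) →* ℂ_[p]ˣ) (S : Set (K →+* ℂ_[p]))
    (hS : (∃ σ0 : M →+* ℂ_[p], ∀ σ : M →+* ℂ_[p],
        σ.comp (algebraMap k M) = σ0.comp (algebraMap k M) → σ.comp (algebraMap K M) ∈ S) ∨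
      ∃ σ1 σ2 : M →+* ℂ_[p], σ1.comp (algebraMap K M) ∈ S ∧ σ2.comp (algebraMap K M) ∈ S ∧
        σ1.comp (algebraMap k M) = inc.comp (algebraMap k M) ∧
        σ2.comp (algebraMap k M) = (inc.comp (c : M →+* M)).comp (algebraMap k M))
    (X : UM p M) (hX0 : X ≠ 0)
    (hX : ∀ g : M ≃ₐ[k] M, g.restrictNormal K = 1 →
      push (g : M →+* M) X = ((ψM g : ℂ_[p]ˣ) : ℂ_[p]) • X)
    (hlog : ∀ σ : M →+* ℂ_[p], σ.comp (algebraMap K M) ∈ S → logLin hL σ X = 0) :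
    ∃ u w : UM p M, u ∈ AU p M ∧ w ∈ AU p M ∧ InChi ψM u ∧ InChi (ψM * sgnM p k K M hK) w ∧
      u ≠ 0 ∧ w ≠ 0 ∧ ∃ ε : ℂ_[p], IsAlgebraic ℚ ε ∧
        ε * (logLin hL (inc.comp (c : M →+* M)) w * logLin hL inc u) =
          logLin hL inc w * logLin hL (inc.comp (c : M →+* M)) u := by
  classical
  obtain ⟨t0, ht0, hu⟩ := (Nat.card_eq_two_iff' (1 : K ≃ₐ[k] K)).1 hK
  obtain ⟨t, ht⟩ := AlgEquiv.restrictNormalHom_surjective (F := k) (K₁ := K) M t0
  have htK : t.restrictNormal K ≠ 1 := by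
    intro h
    apply ht0
    rw [← ht]
    exact h
  have hmul : ∀ g h : M ≃ₐ[k] M, (g * h).restrictNormal K =
      g.restrictNormal K * h.restrictNormal K := fun g h =>
    map_mul (AlgEquiv.restrictNormalHom (F := k) (K₁ := M) K) g h
  have hinv : ∀ g : M ≃ₐ[k] M, (g⁻¹).restrictNormal K = (g.restrictNormal K)⁻¹ := fun g =>
    map_inv (AlgEquiv.restrictNormalHom (F := k) (K₁ := M) K) g
  have hne : ∀ g : M ≃ₐ[k] M, g.restrictNormal K ≠ 1 → g.restrictNormal K = t.restrictNormal K := by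
    intro g hg
    rw [hu _ hg, hu _ htK]
  have hpp : ∀ (g h : M ≃ₐ[k] M) (x : UM p M), push (g : M →+* M) (push (h : M →+* M) x) =
      push ((g * h : M ≃ₐ[k] M) : M →+* M) x := fun g h x => push_push _ _ x
  set y : UM p M := ((ψM t⁻¹ : ℂ_[p]ˣ) : ℂ_[p]) • push (t : M →+* M) X with hy
  -- the action on `y`
  have hψ : ∀ g h : M ≃ₐ[k] M, ((ψM (g * h) : ℂ_[p]ˣ) : ℂ_[p]) =
      ((ψM g : ℂ_[p]ˣ) : ℂ_[p]) * ((ψM h : ℂ_[p]ˣ) : ℂ_[p]) := fun g h => by
    rw [map_mul, Units.val_mul]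
  have hψt : ((ψM t⁻¹ : ℂ_[p]ˣ) : ℂ_[p]) * ((ψM t : ℂ_[p]ˣ) : ℂ_[p]) = 1 := by
    rw [← hψ, inv_mul_cancel, map_one, Units.val_one]
  have hyK : ∀ g : M ≃ₐ[k] M, g.restrictNormal K = 1 →
      push (g : M →+* M) y = ((ψM g : ℂ_[p]ˣ) : ℂ_[p]) • y := by
    intro g hg
    have h1 : (t⁻¹ * g * t).restrictNormal K = 1 := by
      rw [hmul, hmul, hg, mul_one, hinv, inv_mul_cancel]
    rw [hy, map_smul, hpp]
    have h2 : g * t = t * (t⁻¹ * g * t) := by group
    rw [h2, ← hpp, hX _ h1, map_smul, smul_smul, smul_smul, hψ, hψ]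
    congr 1
    linear_combination (((ψM t⁻¹ : ℂ_[p]ˣ) : ℂ_[p]) * ((ψM g : ℂ_[p]ˣ) : ℂ_[p])) * hψt
  have hXt : ∀ g : M ≃ₐ[k] M, g.restrictNormal K ≠ 1 →
      push (g : M →+* M) X = ((ψM g : ℂ_[p]ˣ) : ℂ_[p]) • y := by
    intro g hg
    have h1 : (t⁻¹ * g).restrictNormal K = 1 := by
      rw [hmul, hne g hg, hinv, inv_mul_cancel]
    have h2 : g = t * (t⁻¹ * g) := by group
    rw [h2, ← hpp, hX _ h1, map_smul, hy, smul_smul, ← h2, hψ]
    congr 1
    ring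
  have hyt : ∀ g : M ≃ₐ[k] M, g.restrictNormal K ≠ 1 →
      push (g : M →+* M) y = ((ψM g : ℂ_[p]ˣ) : ℂ_[p]) • X := by
    intro g hg
    have h1 : (g * t).restrictNormal K = 1 := by
      have h3 := hmul g t
      rw [hne g hg] at h3
      rw [h3]
      by_contra h4
      have h5 := hu _ h4
      rw [← hu _ htK] at h5
      exact htK (mul_eq_left.1 h5)
    rw [hy, map_smul, hpp, hX _ h1, smul_smul, hψ]
    congr 1
    linear_combination ((ψM g : ℂ_[p]ˣ) : ℂ_[p]) * hψt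
  -- the two components
  have hx1 : InChi ψM (X + y) := by
    intro g
    rw [actLin_eq, map_add]
    by_cases hg : g.restrictNormal K = 1
    · rw [hX g hg, hyK g hg, smul_add]
    · rw [hXt g hg, hyt g hg, smul_add, add_comm]
  have hx2 : InChi (ψM * sgnM p k K M hK) (X - y) := by
    intro g
    rw [actLin_eq, map_sub, MonoidHom.mul_apply]
    by_cases hg : g.restrictNormal K = 1
    · rw [(sgnM_eq_one hK g).2 hg, mul_one, hX g hg, hyK g hg, smul_sub]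
    · have h1 : sgnM p k K M hK g = -1 := sgn_of_ne hK hg
      rw [h1, hXt g hg, hyt g hg, mul_neg, mul_one, Units.val_neg, neg_smul, smul_sub, neg_sub]
  have hXsum : (2 : ℂ_[p]) • X = (X + y) + (X - y) := by
    rw [two_smul]; abel
  have h20 : (2 : ℂ_[p]) ≠ 0 := two_ne_zero
  rcases hS with ⟨σ0, hσ0⟩ | ⟨σ1, σ2, hσ1S, hσ2S, hσ1, hσ2⟩
  · -- types induced from `k`
    exfalso
    have h1 : logLin hL σ0 X = 0 := hlog _ (hσ0 _ rfl)
    have h2 : logLin hL σ0 y = 0 := by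
      rw [hy, map_smul, logLin_push, hlog _ (hσ0 _ ?_), smul_zero]
      ext x
      change σ0 (t (algebraMap k M x)) = σ0 (algebraMap k M x)
      rw [AlgEquiv.commutes]
    have h3 := killed θ hpl hL σ0 hx1 (by rw [map_add, h1, h2, add_zero])
    have h4 := killed θ hpl hL σ0 hx2 (by rw [map_sub, h1, h2, sub_zero])
    rw [h3, h4, add_zero] at hXsum
    exact (smul_eq_zero.1 hXsum).elim h20 hX0
  · have h1 : logLin hL σ1 X = 0 := hlog _ hσ1S
    have h2 : logLin hL σ2 X = 0 := hlog _ hσ2S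
    have h10 : X + y ≠ 0 := by
      intro h
      rw [h, zero_add] at hXsum
      have h3 := killed θ hpl hL σ1 hx2 (by rw [← hXsum, map_smul, h1, smul_zero])
      rw [h3] at hXsum
      exact (smul_eq_zero.1 hXsum).elim h20 hX0
    have h11 : X - y ≠ 0 := by
      intro h
      rw [h, add_zero] at hXsum
      have h3 := killed θ hpl hL σ1 hx1 (by rw [← hXsum, map_smul, h1, smul_zero])
      rw [h3] at hXsum
      exact (smul_eq_zero.1 hXsum).elim h20 hX0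
    obtain ⟨u, huA, huχ, hu0⟩ := exists_gen hx1 h10
    obtain ⟨w, hwA, hwχ, hw0⟩ := exists_gen hx2 h11
    obtain ⟨a, ha⟩ := one_dim θ hpl hx1 huχ hu0
    obtain ⟨b, hb⟩ := one_dim θ hpl hx2 hwχ hw0
    have ha0 : a ≠ 0 := by
      rintro rfl
      rw [zero_smul] at ha
      exact h10 ha
    obtain ⟨τ1, hτ1⟩ := exists_aut (K := k) σ1 inc hσ1
    obtain ⟨τ2, hτ2⟩ := exists_aut (K := k) σ2 (inc.comp (c : M →+* M)) hσ2
    refine ⟨u, w, huA, hwA, huχ, hwχ, hu0, hw0,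
      ((sgnM p k K M hK τ2 : ℂ_[p]ˣ) : ℂ_[p]) * ((sgnM p k K M hK τ1⁻¹ : ℂ_[p]ˣ) : ℂ_[p]),
      (chi_alg _ _).mul (chi_alg _ _), ?_⟩
    have e1 : ∀ (σ σ' : M →+* ℂ_[p]) (τ : M ≃ₐ[k] M), σ = σ'.comp (τ : M →+* M) →
        logLin hL σ X = 0 → a * logLin hL σ' u +
          ((sgnM p k K M hK τ : ℂ_[p]ˣ) : ℂ_[p]) * (b * logLin hL σ' w) = 0 := by
      intro σ σ' τ hστ h0
      have h3 := congrArg (logLin hL σ) hXsum
      rw [map_smul, h0, smul_zero, map_add, ha, hb, map_smul, map_smul, hστ,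
        logLin_inChi hL huχ, logLin_inChi hL hwχ, MonoidHom.mul_apply, Units.val_mul,
        smul_eq_mul, smul_eq_mul] at h3
      have h4 : ((ψM τ : ℂ_[p]ˣ) : ℂ_[p]) ≠ 0 := (ψM τ).ne_zero
      apply mul_left_cancel₀ h4
      rw [mul_zero, h3]
      ring
    have h3 := e1 σ1 inc τ1 hτ1 h1
    have h4 := e1 σ2 _ τ2 hτ2 h2
    have h5 : ((sgnM p k K M hK τ1⁻¹ : ℂ_[p]ˣ) : ℂ_[p]) *
        ((sgnM p k K M hK τ1 : ℂ_[p]ˣ) : ℂ_[p]) = 1 := by
      rw [← Units.val_mul, ← map_mul, inv_mul_cancel, map_one, Units.val_one]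
    apply mul_left_cancel₀ ha0
    linear_combination (((sgnM p k K M hK τ2 : ℂ_[p]ˣ) : ℂ_[p]) *
      ((sgnM p k K M hK τ1⁻¹ : ℂ_[p]ˣ) : ℂ_[p]) * logLin hL (inc.comp (c : M →+* M)) w) * h3 -
      logLin hL inc w * h4 - ((sgnM p k K M hK τ2 : ℂ_[p]ˣ) : ℂ_[p]) * b * logLin hL inc w *
      logLin hL (inc.comp (c : M →+* M)) w * h5

end quad

end Pool.Agent.V7H53.SX
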