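import Pool.Agent.V7H53.SX.Abel
import Pool.Agent.W289.SL.LogEx

set_option autoImplicit false
set_option linter.unusedSectionVars false

/-!
# CM types of `K = F k` for abelian totally real `F`
-/

namespace Pool.Agent.V7H53.SX

open NumberField TensorProduct Pool.Agent.W289.SL Pool.Agent.W332.SL6
open Pool.Agent.W254.PA (exists_theta LgP Hyp LtE)

variable {p : ℕ} [Fact p.Prime]

section emb

variable {k F K : Type} [Field k] [NumberField k] [IsTotallyComplex k] [Field F] [NumberField F]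
  [IsTotallyReal F] [Field K] [NumberField K] [Algebra F K] [Algebra k K]

lemma cK_comm (cK : K ≃ₐ[F] K)
    (hcK : ∀ b : K →+* ℂ, (starRingEnd ℂ).comp b = b.comp (cK : K →+* K)) (b : K ≃ₐ[k] K) (y : K) :
    cK (b y) = b (cK y) := by
  obtain ⟨s⟩ : Nonempty (K →+* ℂ) := inferInstance
  apply s.injective
  have h1 := RingHom.congr_fun (hcK s) (b y)
  have h2 := RingHom.congr_fun (hcK (s.comp (b : K →+* K))) y
  exact h1.symm.trans h2

lemma cK_cK (cK : K ≃ₐ[F] K)
    (hcK : ∀ b : K →+* ℂ, (starRingEnd ℂ).comp b = b.comp (cK : K →+* K)) (y : K) :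
    cK (cK y) = y := by
  obtain ⟨s⟩ : Nonempty (K →+* ℂ) := inferInstance
  apply s.injective
  have h1 : ∀ z, star (s z) = s (cK z) := fun z => RingHom.congr_fun (hcK s) z
  rw [← h1, ← h1, star_star]

lemma move (θ : ℂ_[p] ≃+* ℂ) (cK : K ≃ₐ[F] K)
    (hcK : ∀ b : K →+* ℂ, (starRingEnd ℂ).comp b = b.comp (cK : K →+* K)) (s : K →+* ℂ_[p]) :
    (s.comp (cK : K →+* K)).comp (algebraMap k K) ≠ s.comp (algebraMap k K) := by
  intro h
  refine IsTotallyComplex.complexEmbedding_not_isReal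
    (((θ : ℂ_[p] →+* ℂ).comp s).comp (algebraMap k K)) ?_
  rw [ComplexEmbedding.isReal_iff]
  have h1 := hcK ((θ : ℂ_[p] →+* ℂ).comp s)
  ext x
  rw [ComplexEmbedding.conjugate_coe_eq]
  have h2 := RingHom.congr_fun h1 (algebraMap k K x)
  have h3 := RingHom.congr_fun h x
  have h4 : (starRingEnd ℂ) (θ (s (algebraMap k K x))) = θ (s (cK (algebraMap k K x))) := h2
  have h5 : s (cK (algebraMap k K x)) = s (algebraMap k K x) := h3
  change (starRingEnd ℂ) (θ (s (algebraMap k K x))) = θ (s (algebraMap k K x))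
  rw [h4, h5]

lemma res_comp (s : K →+* ℂ_[p]) (b : K ≃ₐ[k] K) :
    (s.comp (b : K →+* K)).comp (algebraMap k K) = s.comp (algebraMap k K) := by
  ext x
  change s (b (algebraMap k K x)) = s (algebraMap k K x)
  rw [AlgEquiv.commutes]

/-- the embeddings of `K` -/
lemma emb_K [IsGalois k K] [FiniteDimensional k K] (θ : ℂ_[p] ≃+* ℂ)
    (hpl : ∀ w w' : InfinitePlace k, w = w') (cK : K ≃ₐ[F] K)
    (hcK : ∀ b : K →+* ℂ, (starRingEnd ℂ).comp b = b.comp (cK : K →+* K)) (s0 t : K →+* ℂ_[p]) :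
    (∃ b : K ≃ₐ[k] K, t = s0.comp (b : K →+* K)) ∨
      ∃ b : K ≃ₐ[k] K, t = (s0.comp (cK : K →+* K)).comp (b : K →+* K) := by
  have h1 := hpl (InfinitePlace.mk (((θ : ℂ_[p] →+* ℂ).comp t).comp (algebraMap k K)))
    (InfinitePlace.mk (((θ : ℂ_[p] →+* ℂ).comp s0).comp (algebraMap k K)))
  rcases InfinitePlace.mk_eq_iff.1 h1 with h2 | h2
  · left
    exact exists_aut (K := k) t s0 (by
      ext x
      exact θ.injective (RingHom.congr_fun h2 x))
  · right
    refine exists_aut (K := k) t (s0.comp (cK : K →+* K)) ?_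
    ext x
    apply θ.injective
    have h3 := RingHom.congr_fun h2 x
    rw [ComplexEmbedding.conjugate_coe_eq] at h3
    have h4 : star (θ (t (algebraMap k K x))) = θ (s0 (algebraMap k K x)) := h3
    have h5 := RingHom.congr_fun (hcK ((θ : ℂ_[p] →+* ℂ).comp s0)) (algebraMap k K x)
    have h6 : star (θ (s0 (algebraMap k K x))) = θ (s0 (cK (algebraMap k K x))) := h5
    change θ (t (algebraMap k K x)) = θ (s0 (cK (algebraMap k K x)))
    rw [← h6, ← h4, star_star]

/-- `k` has two embeddings -/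
lemma two_emb (θ : ℂ_[p] ≃+* ℂ) (hpl : ∀ w w' : InfinitePlace k, w = w') (ι₀ ι ι' : k →+* ℂ_[p])
    (h : ι ≠ ι₀) (h' : ι' ≠ ι₀) : ι = ι' := by
  have key : ∀ j : k →+* ℂ_[p], j ≠ ι₀ → ∀ x, star (θ (j x)) = θ (ι₀ x) := by
    intro j hj x
    have h1 := hpl (InfinitePlace.mk ((θ : ℂ_[p] →+* ℂ).comp j))
      (InfinitePlace.mk ((θ : ℂ_[p] →+* ℂ).comp ι₀))
    rcases InfinitePlace.mk_eq_iff.1 h1 with h2 | h2
    · exfalso
      apply hj
      ext x
      exact θ.injective (RingHom.congr_fun h2 x)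
    · exact RingHom.congr_fun h2 x
  ext x
  apply θ.injective
  apply star_injective
  rw [key ι h, key ι' h']

/-- the CM type of a subset of `Gal(K/k)` -/
def typ (s0 : K →+* ℂ_[p]) (cK : K →+* K) (s : Finset (K ≃ₐ[k] K)) : Set (K →+* ℂ_[p]) :=
  {t | (∃ b : K ≃ₐ[k] K, b ∉ s ∧ t = s0.comp (b : K →+* K)) ∨
    ∃ b : K ≃ₐ[k] K, b ∈ s ∧ t = (s0.comp cK).comp (b : K →+* K)}

lemma comp_inj (s0 : K →+* ℂ_[p]) {b b' : K ≃ₐ[k] K}
    (h : s0.comp (b : K →+* K) = s0.comp (b' : K →+* K)) : b = b' := by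
  ext y
  exact s0.injective (RingHom.congr_fun h y)

variable (θ : ℂ_[p] ≃+* ℂ) (cK : K ≃ₐ[F] K)
  (hcK : ∀ b : K →+* ℂ, (starRingEnd ℂ).comp b = b.comp (cK : K →+* K)) (s0 : K →+* ℂ_[p])

include θ hcK in
lemma mem_typ₁ (s : Finset (K ≃ₐ[k] K)) (b : K ≃ₐ[k] K) :
    s0.comp (b : K →+* K) ∈ typ s0 (cK : K →+* K) s ↔ b ∉ s := by
  constructor
  · rintro (⟨b', hb', h⟩ | ⟨b', hb', h⟩)
    · rw [comp_inj s0 h]
      exact hb'
    · exfalso
      have h1 := congrArg (fun f : K →+* ℂ_[p] => f.comp (algebraMap k K)) h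
      simp only [res_comp] at h1
      exact move (k := k) θ cK hcK s0 h1.symm
  · intro hb
    exact Or.inl ⟨b, hb, rfl⟩

include θ hcK in
lemma mem_typ₂ (s : Finset (K ≃ₐ[k] K)) (b : K ≃ₐ[k] K) :
    (s0.comp (cK : K →+* K)).comp (b : K →+* K) ∈ typ s0 (cK : K →+* K) s ↔ b ∈ s := by
  constructor
  · rintro (⟨b', hb', h⟩ | ⟨b', hb', h⟩)
    · exfalso
      have h1 := congrArg (fun f : K →+* ℂ_[p] => f.comp (algebraMap k K)) h
      simp only [res_comp] at h1
      exact move (k := k) θ cK hcK s0 h1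
    · rw [comp_inj (s0.comp (cK : K →+* K)) h]
      exact hb'
  · intro hb
    exact Or.inr ⟨b, hb, rfl⟩

include θ hcK in
lemma isCMType_typ [IsGalois k K] [FiniteDimensional k K]
    (hpl : ∀ w w' : InfinitePlace k, w = w') (hcKu : ∀ τ : K ≃ₐ[F] K, τ ≠ 1 → τ = cK)
    (s : Finset (K ≃ₐ[k] K)) : IsCMType p F K (typ s0 (cK : K →+* K) s) := by
  intro c hc σ
  rw [hcKu c hc]
  rcases emb_K θ hpl cK hcK s0 σ with ⟨b, rfl⟩ | ⟨b, rfl⟩
  · have h1 : (s0.comp (b : K →+* K)).comp (cK : K →+* K) =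
        (s0.comp (cK : K →+* K)).comp (b : K →+* K) := by
      ext y
      change s0 (b (cK y)) = s0 (cK (b y))
      rw [cK_comm cK hcK]
    rw [h1, mem_typ₁ θ cK hcK, mem_typ₂ θ cK hcK]
  · have h1 : ((s0.comp (cK : K →+* K)).comp (b : K →+* K)).comp (cK : K →+* K) =
        s0.comp (b : K →+* K) := by
      ext y
      change s0 (cK (b (cK y))) = s0 (b y)
      rw [← cK_comm cK hcK b y, cK_cK cK hcK]
    rw [h1, mem_typ₁ θ cK hcK, mem_typ₂ θ cK hcK, not_not]

include θ hcK in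
lemma ncard_typ [IsGalois k K] [FiniteDimensional k K] [DecidableEq (K ≃ₐ[k] K)]
    (hpl : ∀ w w' : InfinitePlace k, w = w')
    (s : Finset (K ≃ₐ[k] K)) (ι : k →+* ℂ_[p]) :
    Set.ncard {t | t ∈ typ s0 (cK : K →+* K) s ∧ t.comp (algebraMap k K) = ι} = sᶜ.card ∨
      Set.ncard {t | t ∈ typ s0 (cK : K →+* K) s ∧ t.comp (algebraMap k K) = ι} = s.card := by
  by_cases hι : ι = s0.comp (algebraMap k K)
  · left
    have h1 : {t | t ∈ typ s0 (cK : K →+* K) s ∧ t.comp (algebraMap k K) = ι} =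
        (fun b : K ≃ₐ[k] K => s0.comp (b : K →+* K)) '' (↑sᶜ : Set (K ≃ₐ[k] K)) := by
      ext t
      constructor
      · rintro ⟨⟨b, hb, rfl⟩ | ⟨b, hb, rfl⟩, h2⟩
        · exact ⟨b, by simpa using hb, rfl⟩
        · exfalso
          rw [res_comp, hι] at h2
          exact move (k := k) θ cK hcK s0 h2
      · rintro ⟨b, hb, rfl⟩
        refine ⟨(mem_typ₁ θ cK hcK s0 s b).2 (by simpa using hb), ?_⟩
        rw [hι]
        exact res_comp s0 b
    rw [h1, Set.ncard_image_of_injective _ (fun b b' h => comp_inj s0 h), Set.ncard_coe_finset]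
  · right
    have h0 : ι = (s0.comp (cK : K →+* K)).comp (algebraMap k K) :=
      two_emb θ hpl (s0.comp (algebraMap k K)) ι _ hι (move (k := k) θ cK hcK s0)
    have h1 : {t | t ∈ typ s0 (cK : K →+* K) s ∧ t.comp (algebraMap k K) = ι} =
        (fun b : K ≃ₐ[k] K => (s0.comp (cK : K →+* K)).comp (b : K →+* K)) ''
          (↑s : Set (K ≃ₐ[k] K)) := by
      ext t
      constructor
      · rintro ⟨⟨b, hb, rfl⟩ | ⟨b, hb, rfl⟩, h2⟩
        · exfalso
          rw [res_comp, h0] at h2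
          exact move (k := k) θ cK hcK s0 h2.symm
        · exact ⟨b, hb, rfl⟩
      · rintro ⟨b, hb, rfl⟩
        refine ⟨(mem_typ₂ θ cK hcK s0 s b).2 hb, ?_⟩
        rw [h0]
        exact res_comp _ b
    rw [h1, Set.ncard_image_of_injective _ (fun b b' h => comp_inj _ h), Set.ncard_coe_finset]

end emb

section main

variable {k E F K H M : Type} [Field k] [NumberField k] [IsTotallyComplex k] [Field E]
  [NumberField E] [Algebra k E] [IsGalois k E] [Field F] [NumberField F] [IsTotallyReal F]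
  [Field K] [NumberField K] [Algebra F K] [Algebra k K] [IsGalois k K]
  [Field H] [NumberField H] [Algebra K H] [Algebra E H] [Algebra k H] [IsScalarTower k K H]
  [IsScalarTower k E H] [IsGalois K H]
  [Field M] [NumberField M] [IsGalois ℚ M] [Algebra k M] [Algebra E M] [Algebra K M] [Algebra H M]
  [IsScalarTower k E M] [IsScalarTower k K M] [IsScalarTower E H M] [IsScalarTower K H M]

/-- **Induced types.** -/
theorem induced_types (hk : Module.finrank ℚ k = 2) (hFK : Module.finrank F K = 2)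
    (hcomm : ∀ a b : K ≃ₐ[k] K, a * b = b * a) (ψ : (E ≃ₐ[k] E) →* ℂ_[p]ˣ)
    (χ : (H ≃ₐ[K] H) →* ℂ_[p]ˣ)
    (hχ : ∀ (τ : H ≃ₐ[K] H) (g : E ≃ₐ[k] E),
      (∀ e : E, τ (algebraMap E H e) = algebraMap E H (g e)) → χ τ = ψ g)
    (inc : M →+* ℂ_[p]) (S : Set (K →+* ℂ_[p])) (hS : IsCMType p F K S)
    (hind : ∀ t ∈ S, ∀ t' ∈ S, t.comp (algebraMap k K) = t'.comp (algebraMap k K)) :
    SigmaLeopoldt p K H S χ := by
  classical
  obtain ⟨θ⟩ := exists_theta p
  have hpl := one_place k hk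
  have : Algebra.IsQuadraticExtension ℚ k := ⟨hk⟩
  have : IsGalois ℚ k := inferInstance
  have : IsGalois k M := IsGalois.tower_top_of_isGalois ℚ k M
  have : FiniteDimensional k M := Module.Finite.of_restrictScalars_finite ℚ k M
  have : FiniteDimensional k K := Module.Finite.of_restrictScalars_finite ℚ k K
  have : IsTotallyComplex K := isTotallyComplex_of_algebra k K
  obtain ⟨cK, hcK1, hcKu, hcK⟩ := exists_cK F K hFK
  have hSc := hS cK hcK1
  intro L hL x hx hx1
  by_contra hx0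
  obtain ⟨X, hX0, hX, hX1⟩ := to_M (M := M) θ ψ hL χ hχ S x hx hx0 hx1
  -- a member of `S`
  set s0 : K →+* ℂ_[p] := inc.comp (algebraMap K M) with hs0
  obtain ⟨t1, ht1⟩ : ∃ t1, t1 ∈ S := by
    by_cases h : s0 ∈ S
    · exact ⟨s0, h⟩
    · refine ⟨s0.comp (cK : K →+* K), ?_⟩
      by_contra h2
      exact h ((hSc s0).2 h2)
  have hall : ∀ t : K →+* ℂ_[p], t.comp (algebraMap k K) = t1.comp (algebraMap k K) → t ∈ S := by
    intro t ht
    by_contra h
    have h2 : t.comp (cK : K →+* K) ∈ S := by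
      by_contra h2
      exact h ((hSc t).2 h2)
    exact move (k := k) θ cK hcK t ((hind _ h2 _ ht1).trans ht.symm)
  have : Algebra.IsAlgebraic K M := Algebra.IsAlgebraic.tower_top (K := ℚ) K
  obtain ⟨σ0, hσ0⟩ := exists_ext (H := M) t1
  have hkill : ∀ g : M ≃ₐ[k] M, logLin hL (σ0.comp (g : M →+* M)) X = 0 := by
    intro g
    apply hX1
    apply hall
    ext z
    change σ0 (g (algebraMap K M (algebraMap k K z))) = t1 (algebraMap k K z)
    rw [← IsScalarTower.algebraMap_apply, AlgEquiv.commutes, ← hσ0]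
    change _ = σ0 (algebraMap K M (algebraMap k K z))
    rw [← IsScalarTower.algebraMap_apply]
  haveI : Finite ((K ≃ₐ[k] K) →* ℂ_[p]ˣ) := finite_dual
  letI : Fintype ((K ≃ₐ[k] K) →* ℂ_[p]ˣ) := Fintype.ofFinite _
  obtain ⟨N, hN0, hN⟩ := decomp_sum hcomm (psiM M ψ) X hX
  have hz : ∀ φ : (K ≃ₐ[k] K) →* ℂ_[p]ˣ, proj (tw (psiM M ψ) φ) X = 0 := by
    intro φ
    refine killed θ hpl hL σ0 (proj_mem (tw (psiM M ψ) φ) X) ?_
    rw [proj_apply, map_sum]
    refine Finset.sum_eq_zero fun g _ => ?_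
    rw [map_smul, logLin_push, hkill, smul_zero]
  rw [Finset.sum_eq_zero (fun φ _ => hz φ)] at hN
  exact (smul_eq_zero.1 hN.symm).elim hN0 hX0

/-- **A non-induced type.** -/
theorem other_types (hk : Module.finrank ℚ k = 2) (hE : ¬ IsCMField E)
    (hFK : Module.finrank F K = 2)
    (hcomm : ∀ a b : K ≃ₐ[k] K, a * b = b * a) (q : ℕ) (hq3 : 3 ≤ q)
    (hqd : q ∣ Module.finrank k K) (ψ : (E ≃ₐ[k] E) →* ℂ_[p]ˣ) (hψ : Function.Injective ψ)
    (χ : (H ≃ₐ[K] H) →* ℂ_[p]ˣ)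
    (hχ : ∀ (τ : H ≃ₐ[K] H) (g : E ≃ₐ[k] E),
      (∀ e : E, τ (algebraMap E H e) = algebraMap E H (g e)) → χ τ = ψ g)
    (inc : M →+* ℂ_[p]) :
    ∃ S : Set (K →+* ℂ_[p]), IsCMType p F K S ∧
      (∀ ι : k →+* ℂ_[p], ¬ q ∣ Set.ncard {t | t ∈ S ∧ t.comp (algebraMap k K) = ι}) ∧
      ∀ b : K ≃ₐ[k] K, SigmaLeopoldt p K H {t | t.comp (b : K →+* K) ∈ S} χ := by
  classical
  obtain ⟨θ⟩ := exists_theta p
  have hpl := one_place k hk
  have : Algebra.IsQuadraticExtension ℚ k := ⟨hk⟩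
  have : IsGalois ℚ k := inferInstance
  have : IsGalois k M := IsGalois.tower_top_of_isGalois ℚ k M
  have : FiniteDimensional k M := Module.Finite.of_restrictScalars_finite ℚ k M
  have : FiniteDimensional k K := Module.Finite.of_restrictScalars_finite ℚ k K
  have : IsTotallyComplex K := isTotallyComplex_of_algebra k K
  obtain ⟨cK, hcK1, hcKu, hcK⟩ := exists_cK F K hFK
  obtain ⟨c, hc⟩ := exists_conj (M := M) ((θ : ℂ_[p] →+* ℂ).comp inc)
  have hc' : ∀ y, θ (inc (c y)) = star (θ (inc y)) := hc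
  obtain ⟨L₀, hL₀⟩ := exists_iwasawaLog p
  haveI : Finite ((K ≃ₐ[k] K) →* ℂ_[p]ˣ) := finite_dual
  letI : Fintype ((K ≃ₐ[k] K) →* ℂ_[p]ˣ) := Fintype.ofFinite _
  have hcard : q ∣ Fintype.card (K ≃ₐ[k] K) := by
    rw [← Nat.card_eq_fintype_card, IsGalois.card_aut_eq_finrank]
    exact hqd
  -- complex conjugation on `K`
  have hcK' : ∀ y : K, c (algebraMap K M y) = algebraMap K M (cK y) := by
    intro y
    apply inc.injective
    apply θ.injective
    rw [hc']
    exact RingHom.congr_fun (hcK (((θ : ℂ_[p] →+* ℂ).comp inc).comp (algebraMap K M))) y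
  have hres : ∀ g g' : M ≃ₐ[k] M,
      (c : M →+* M).comp (g' : M →+* M) = (g : M →+* M).comp (c : M →+* M) →
      g'.restrictNormal K = g.restrictNormal K := by
    intro g g' h
    ext y
    have h1 := RingHom.congr_fun h (algebraMap K M y)
    have h2 : c (g' (algebraMap K M y)) = g (c (algebraMap K M y)) := h1
    rw [hcK', ← AlgEquiv.restrictNormal_commutes g' K y,
      ← AlgEquiv.restrictNormal_commutes g K (cK y), hcK', ← cK_comm cK hcK] at h2
    exact cK.injective ((algebraMap K M).injective h2)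
  have hinv : ¬ ∀ g g' : M ≃ₐ[k] M,
      (c : M →+* M).comp (g' : M →+* M) = (g : M →+* M).comp (c : M →+* M) →
      psiM M ψ g' = psiM M ψ g := fun h =>
    hE (isCM_of_inv hk ψ hψ ((θ : ℂ_[p] →+* ℂ).comp inc) c hc h)
  have htw : ∀ φ : (K ≃ₐ[k] K) →* ℂ_[p]ˣ, tw (psiM M ψ) φ ≠ 1 := by
    intro φ h
    apply hinv
    intro g g' hg
    have h1 := DFunLike.congr_fun h g
    have h2 := DFunLike.congr_fun h g'
    rw [tw_apply, MonoidHom.one_apply] at h1 h2
    rw [hres g g' hg, ← h1] at h2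
    exact mul_right_cancel h2
  choose u huA huχ hu0 using fun φ : (K ≃ₐ[k] K) →* ℂ_[p]ˣ =>
    exists_ne_one (p := p) θ (htw φ)
  obtain ⟨s, hs, hmin⟩ := exists_minor θ hcomm q hq3 hcard hL₀ inc (c : M →+* M) (psiM M ψ) hres
    hinv u huA huχ hu0
  set s0 : K →+* ℂ_[p] := inc.comp (algebraMap K M) with hs0
  refine ⟨typ s0 (cK : K →+* K) s, isCMType_typ θ cK hcK s0 hpl hcKu s, ?_, ?_⟩
  · intro ι h
    rcases ncard_typ θ cK hcK s0 hpl s ι with h1 | h1
    · rw [h1, Finset.card_compl] at h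
      have h2 : Fintype.card (K ≃ₐ[k] K) - (Fintype.card (K ≃ₐ[k] K) - s.card) = s.card := by
        have := s.card_le_univ
        omega
      apply hs
      rw [← h2]
      exact Nat.dvd_sub hcard h
    · rw [h1] at h
      exact hs h
  · intro b0 L hL x hx hx1
    by_contra hx0
    obtain ⟨X, hX0, hX, hX1⟩ := to_M (M := M) θ ψ hL χ hχ _ x hx hx0 hx1
    apply hmin
    rw [← minor_equiv (circ fun φ : (K ≃ₐ[k] K) →* ℂ_[p]ˣ =>
      logLin hL₀ (inc.comp (c : M →+* M)) (u φ) / logLin hL₀ inc (u φ)) (Equiv.mulRight b0)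
      (fun i j => circ_trans _ b0 i j) (Finset.univ.filter fun b => b * b0 ∈ s) s
      (fun i => by rw [Finset.mem_filter]; simp)]
    refine minor_of_fail θ hpl hcomm hL₀ inc (c : M →+* M) (psiM M ψ) u huA huχ hu0 _ X hX0 hX
      ?_ ?_
    · intro g hg
      rw [logLin_unique hL₀ hL]
      apply hX1
      have h1 : ((inc.comp (g : M →+* M)).comp (algebraMap K M)).comp (b0 : K →+* K) =
          s0.comp ((g.restrictNormal K * b0 : K ≃ₐ[k] K) : K →+* K) := by
        ext y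
        change inc (g (algebraMap K M (b0 y))) = inc (algebraMap K M (g.restrictNormal K (b0 y)))
        rw [AlgEquiv.restrictNormal_commutes]
      change ((inc.comp (g : M →+* M)).comp (algebraMap K M)).comp (b0 : K →+* K) ∈
        typ s0 (cK : K →+* K) s
      rw [h1, mem_typ₁ θ cK hcK]
      intro h2
      exact hg (Finset.mem_filter.2 ⟨Finset.mem_univ _, h2⟩)
    · intro g hg
      rw [logLin_unique hL₀ hL]
      apply hX1
      have h1 : (((inc.comp (c : M →+* M)).comp (g : M →+* M)).comp (algebraMap K M)).comp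
          (b0 : K →+* K) =
          (s0.comp (cK : K →+* K)).comp ((g.restrictNormal K * b0 : K ≃ₐ[k] K) : K →+* K) := by
        ext y
        change inc (c (g (algebraMap K M (b0 y)))) =
          inc (algebraMap K M (cK (g.restrictNormal K (b0 y))))
        rw [← hcK', AlgEquiv.restrictNormal_commutes]
      change (((inc.comp (c : M →+* M)).comp (g : M →+* M)).comp (algebraMap K M)).comp
        (b0 : K →+* K) ∈ typ s0 (cK : K →+* K) s
      rw [h1, mem_typ₂ θ cK hcK]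
      exact (Finset.mem_filter.1 hg).2

end main

end Pool.Agent.V7H53.SX
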